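import Mathlib

namespace Pool.Agent.Results.MP_cf7ece_co.LargeDegree

/-- A loopless multigraph with vertex type `V` and edge type `E`: every edge has an
unordered pair of distinct ends; parallel edges are allowed. -/
structure MGraph (V E : Type) where
  ends : E → Sym2 V
  loopless : ∀ e, ¬ (ends e).IsDiag

namespace MGraph

variable {V E : Type}

/-- Degree of a vertex, parallel edges counted separately. -/
noncomputable def degree (G : MGraph V E) (v : V) : ℕ := Nat.card {e : E // v ∈ G.ends e}

/-- `Δ(G) = Δ`. -/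
def HasMaxDegree (G : MGraph V E) (Δ : ℕ) : Prop :=
  (∀ v, G.degree v ≤ Δ) ∧ ∃ v, G.degree v = Δ

/-- `G` contains a cycle with `l` distinct vertices `v 0, ..., v (l-1)`, consecutive ones
(cyclically) being adjacent. -/
def HasCycle (G : MGraph V E) (l : ℕ) : Prop :=
  ∃ v : ℕ → V, (∀ i < l, ∀ j < l, v i = v j → i = j) ∧
    ∀ i < l, ∃ e, G.ends e = s(v i, v ((i + 1) % l))

/-- The odd girth of `G` is `g`: the least odd `l ≥ 3` such that `G` contains a cycle of
length `l`. -/
def HasOddGirth (G : MGraph V E) (g : ℕ) : Prop :=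
  IsLeast {l | 3 ≤ l ∧ l % 2 = 1 ∧ G.HasCycle l} g

/-- `G` has a proper edge colouring with `k` colours. -/
def Colorable (G : MGraph V E) (k : ℕ) : Prop :=
  ∃ c : E → Fin k, ∀ e f, e ≠ f → (∃ v, v ∈ G.ends e ∧ v ∈ G.ends f) → c e ≠ c f

/-- The chromatic index of `G` is `k`. -/
def HasChromaticIndex (G : MGraph V E) (k : ℕ) : Prop := IsLeast {j | G.Colorable j} k

/-! ### Incomplete colourings -/

/-- A colouring of some of the edges (none means uncoloured) is proper. -/
def PP (G : MGraph V E) {k : ℕ} (c : E → Option (Fin k)) : Prop :=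
  ∀ e f v a, v ∈ G.ends e → v ∈ G.ends f → c e = some a → c f = some a → e = f

/-- Colour `a` is missing at `v`. -/
def Miss (G : MGraph V E) {k : ℕ} (c : E → Option (Fin k)) (v : V) (a : Fin k) : Prop :=
  ∀ e, v ∈ G.ends e → c e ≠ some a

lemma colorable_of_total (G : MGraph V E) {k : ℕ} (c : E → Option (Fin k)) (hc : G.PP c)
    (ht : ∀ e, c e ≠ none) : G.Colorable k := by
  have h : ∀ e, ∃ a, c e = some a := fun e => Option.ne_none_iff_exists'.mp (ht e)
  choose d hd using h
  refine ⟨d, fun e f hef ⟨v, hv, hw⟩ h => hef ?_⟩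
  exact hc e f v (d e) hv hw (hd e) (by rw [hd f, h])

/-- the neighbour of `v` along the edge of colour `a`, or `v` if `a` is missing at `v` -/
noncomputable def nb (G : MGraph V E) {k : ℕ} (c : E → Option (Fin k)) (a : Fin k) (v : V) : V := by
  classical
  exact if h : ∃ w, ∃ e, c e = some a ∧ G.ends e = s(v, w) then h.choose else v

lemma nb_eq (G : MGraph V E) {k : ℕ} {c : E → Option (Fin k)} (hc : G.PP c) {a : Fin k} {v w : V}
    {e : E} (h1 : c e = some a) (h2 : G.ends e = s(v, w)) : G.nb c a v = w := by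
  classical
  have h : ∃ w, ∃ e, c e = some a ∧ G.ends e = s(v, w) := ⟨w, e, h1, h2⟩
  unfold nb
  rw [dif_pos h]
  obtain ⟨e', h3, h4⟩ := h.choose_spec
  have : e = e' := hc e e' v a (by rw [h2]; simp) (by rw [h4]; simp) h1 h3
  subst this
  rw [h2] at h4
  have := Sym2.congr_right.mp h4
  exact this.symm

lemma nb_miss (G : MGraph V E) {k : ℕ} {c : E → Option (Fin k)} {a : Fin k} {v : V}
    (h : G.Miss c v a) : G.nb c a v = v := by
  classical
  unfold nb
  rw [dif_neg]
  rintro ⟨w, e, h1, h2⟩
  exact h e (by rw [h2]; simp) h1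

lemma exists_of_not_miss (G : MGraph V E) {k : ℕ} {c : E → Option (Fin k)} (hc : G.PP c)
    {a : Fin k} {v : V}
    (h : ¬ G.Miss c v a) : ∃ e, c e = some a ∧ G.ends e = s(v, G.nb c a v) := by
  unfold Miss at h
  push Not at h
  obtain ⟨e, he, h1⟩ := h
  obtain ⟨w, hw⟩ := Sym2.mem_iff_exists.mp he
  exact ⟨e, h1, by rw [G.nb_eq hc h1 hw, hw]⟩

lemma miss_iff (G : MGraph V E) {k : ℕ} {c : E → Option (Fin k)} (hc : G.PP c) {a : Fin k} {v : V} :
    G.nb c a v = v ↔ G.Miss c v a := by
  constructor
  · intro h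
    by_contra hm
    obtain ⟨e, _, h2⟩ := G.exists_of_not_miss hc hm
    rw [h] at h2
    exact G.loopless e (by rw [h2]; simp)
  · exact G.nb_miss

lemma nb_invol (G : MGraph V E) {k : ℕ} {c : E → Option (Fin k)} (hc : G.PP c) (a : Fin k) :
    Function.Involutive (G.nb c a) := by
  intro v
  by_cases h : G.Miss c v a
  · rw [G.nb_miss h, G.nb_miss h]
  · obtain ⟨e, h1, h2⟩ := G.exists_of_not_miss hc h
    exact G.nb_eq hc h1 (by rw [h2, Sym2.eq_swap])

/-- Exchange of two colours on a closed set of vertices. -/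
lemma swap_on (G : MGraph V E) {k : ℕ} {c : E → Option (Fin k)} (hc : G.PP c) (a b : Fin k)
    (K : Set V)
    (hK : ∀ e u w, u ∈ G.ends e → w ∈ G.ends e → (c e = some a ∨ c e = some b) → u ∈ K → w ∈ K) :
    ∃ c' : E → Option (Fin k), G.PP c' ∧ (∀ e, c' e = none ↔ c e = none) ∧
      (∀ e x, x ≠ a → x ≠ b → (c' e = some x ↔ c e = some x)) ∧
      (∀ v ∈ K, ∀ x, G.Miss c v x → G.Miss c' v (Equiv.swap a b x)) ∧
      (∀ v, v ∉ K → ∀ x, G.Miss c v x → G.Miss c' v x) ∧
      (∀ e v, v ∈ G.ends e → v ∉ K → c' e = c e) ∧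
      (∀ e v, v ∈ G.ends e → v ∈ K → ∀ x, c' e = some x ↔ c e = some (Equiv.swap a b x)) := by
  classical
  have key1 : ∀ e v, v ∈ G.ends e → v ∉ K →
      (if ∃ u ∈ G.ends e, u ∈ K then (c e).map (Equiv.swap a b) else c e) = c e := by
    intro e v hv hvK
    split_ifs with h
    · obtain ⟨u, hu, huK⟩ := h
      rcases hce : c e with _ | x
      · rfl
      · have h1 : x ≠ a := by
          rintro rfl
          exact hvK (hK e u v hu hv (Or.inl hce) huK)
        have h2 : x ≠ b := by
          rintro rfl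
          exact hvK (hK e u v hu hv (Or.inr hce) huK)
        simp [Equiv.swap_apply_of_ne_of_ne h1 h2]
    · rfl
  have key2 : ∀ e v, v ∈ G.ends e → v ∈ K →
      (if ∃ u ∈ G.ends e, u ∈ K then (c e).map (Equiv.swap a b) else c e) =
        (c e).map (Equiv.swap a b) := by
    intro e v hv hvK
    rw [if_pos ⟨v, hv, hvK⟩]
  have map_some : ∀ (o : Option (Fin k)) x, o.map (Equiv.swap a b) = some x ↔
      o = some (Equiv.swap a b x) := by
    intro o x
    rcases o with _ | y
    · simp
    · simp only [Option.map_some, Option.some.injEq]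
      constructor
      · rintro rfl
        simp
      · rintro rfl
        simp
  refine ⟨fun e => if ∃ u ∈ G.ends e, u ∈ K then (c e).map (Equiv.swap a b) else c e,
    ?_, ?_, ?_, ?_, ?_, key1, fun e v hv hvK x => ?_⟩
  rotate_left 5
  · dsimp only
    rw [key2 e v hv hvK, map_some]
  · intro e f v x he hf h1 h2
    by_cases hv : v ∈ K
    · simp only [key2 e v he hv, map_some] at h1
      simp only [key2 f v hf hv, map_some] at h2
      exact hc e f v _ he hf h1 h2
    · simp only [key1 e v he hv] at h1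
      simp only [key1 f v hf hv] at h2
      exact hc e f v _ he hf h1 h2
  · intro e
    dsimp only
    split_ifs
    · simp
    · rfl
  · intro e x h1 h2
    dsimp only
    split_ifs
    · rw [map_some, Equiv.swap_apply_of_ne_of_ne h1 h2]
    · rfl
  · intro v hv x hx e he h
    simp only [key2 e v he hv, map_some, Equiv.swap_apply_self] at h
    exact hx e he h
  · intro v hv x hx e he h
    simp only [key1 e v he hv] at h
    exact hx e he h

end MGraph

/-! ### Two involutions -/

section Invol

variable {V : Type}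

lemma dih (s t : Equiv.Perm V) (hs : s * s = 1) (ht : t * t = 1) (n : ℤ) :
    s * (s * t) ^ n = (s * t) ^ (-n) * s := by
  have hs' : s⁻¹ = s := inv_eq_of_mul_eq_one_left hs
  have ht' : t⁻¹ = t := inv_eq_of_mul_eq_one_left ht
  have h1 : s * (s * t) * s⁻¹ = (s * t)⁻¹ := by
    rw [mul_inv_rev, hs', ht', ← mul_assoc, hs, one_mul]
  have h2 : s * (s * t) ^ n * s⁻¹ = ((s * t)⁻¹) ^ n := by
    rw [← h1, conj_zpow]
  rw [zpow_neg, ← inv_zpow, ← h2]
  simp [mul_assoc]

lemma dih_s (s t : Equiv.Perm V) (hs : s * s = 1) (ht : t * t = 1) (v : V) (hv : s v = v) (n : ℤ) :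
    s (((s * t) ^ n) v) = ((s * t) ^ (-n)) v := by
  have h := congrArg (fun p : Equiv.Perm V => p v) (dih s t hs ht n)
  simpa [Equiv.Perm.mul_apply, hv] using h

lemma dih_t (s t : Equiv.Perm V) (hs : s * s = 1) (ht : t * t = 1) (v : V) (hv : s v = v) (n : ℤ) :
    t (((s * t) ^ n) v) = ((s * t) ^ (-n - 1)) v := by
  have h1 : t = s * (s * t) := by rw [← mul_assoc, hs, one_mul]
  have h2 : t (((s * t) ^ n) v) = s (((s * t) ^ (n + 1)) v) := by
    rw [zpow_add_one]
    have h3 : (s * t) ^ n * (s * t) = (s * t) * (s * t) ^ n := by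
      rw [← zpow_add_one, add_comm, zpow_one_add]
    rw [h3]
    simp only [Equiv.Perm.mul_apply]
    have h4 : s (s (t (((s * t) ^ n) v))) = t (((s * t) ^ n) v) := by
      have := congrArg (fun p : Equiv.Perm V => p (t (((s * t) ^ n) v))) hs
      simpa using this
    exact h4.symm
  rw [h2, dih_s s t hs ht v hv]
  congr 2
  ring

lemma per_iff [Finite V] (r : Equiv.Perm V) (v : V) :
    ∃ N : ℕ, 0 < N ∧ ∀ a b : ℤ, (r ^ a) v = (r ^ b) v ↔ (N : ℤ) ∣ a - b := by
  refine ⟨Function.minimalPeriod (r • ·) v, ?_, ?_⟩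
  · apply Function.minimalPeriod_pos_of_mem_periodicPts
    refine ⟨orderOf r, orderOf_pos r, ?_⟩
    have : (fun x => r • x)^[orderOf r] v = v := by
      rw [smul_iterate, pow_orderOf_eq_one]
      simp
    exact this
  · intro a b
    rw [← MulAction.zpow_smul_eq_iff_minimalPeriod_dvd]
    rw [Equiv.Perm.smul_def, sub_eq_neg_add, zpow_add, Equiv.Perm.mul_apply, zpow_neg,
      Equiv.Perm.inv_eq_iff_eq]

lemma three_fixed [Finite V] (s t : Equiv.Perm V) (hs : s * s = 1) (ht : t * t = 1) (v u w : V)
    (hv : s v = v) (n m : ℤ) (hu : u = ((s * t) ^ n) v) (hw : w = ((s * t) ^ m) v)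
    (hu' : s u = u ∨ t u = u) (hw' : s w = w ∨ t w = w) : v = u ∨ v = w ∨ u = w := by
  obtain ⟨N, hN, hper⟩ := per_iff (s * t) v
  have h1 : ∀ n : ℤ, s (((s * t) ^ n) v) = ((s * t) ^ n) v → (N : ℤ) ∣ 2 * n := by
    intro n h
    rw [dih_s s t hs ht v hv, hper] at h
    have : 2 * n = -(-n - n) := by ring
    rw [this]
    exact (dvd_neg).mpr h
  have h2 : ∀ n : ℤ, t (((s * t) ^ n) v) = ((s * t) ^ n) v → (N : ℤ) ∣ 2 * n + 1 := by
    intro n h
    rw [dih_t s t hs ht v hv, hper] at h
    have : 2 * n + 1 = -(-n - 1 - n) := by ring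
    rw [this]
    exact (dvd_neg).mpr h
  have hu2 : (N : ℤ) ∣ 2 * n ∨ (N : ℤ) ∣ 2 * n + 1 := by
    rw [hu] at hu'
    exact hu'.imp (h1 n) (h2 n)
  have hw2 : (N : ℤ) ∣ 2 * m ∨ (N : ℤ) ∣ 2 * m + 1 := by
    rw [hw] at hw'
    exact hw'.imp (h1 m) (h2 m)
  have e1 : (N : ℤ) ∣ n → v = u := by
    intro h
    have := (hper n 0).mpr (by simpa using h)
    rw [hu, this]; simp
  have e2 : (N : ℤ) ∣ m → v = w := by
    intro h
    have := (hper m 0).mpr (by simpa using h)
    rw [hw, this]; simp
  have e3 : (N : ℤ) ∣ n - m → u = w := by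
    intro h
    have := (hper n m).mpr h
    rw [hu, hw, this]
  rcases hu2 with ⟨a, ha⟩ | ⟨a, ha⟩ <;> rcases hw2 with ⟨b, hb⟩ | ⟨b, hb⟩
  · rcases Int.even_or_odd' a with ⟨a', ha' | ha'⟩
    · left; apply e1; refine ⟨a', ?_⟩; rw [ha'] at ha; linarith
    · rcases Int.even_or_odd' b with ⟨b', hb' | hb'⟩
      · right; left; apply e2; refine ⟨b', ?_⟩; rw [hb'] at hb; linarith
      · right; right; apply e3; refine ⟨a' - b', ?_⟩
        rw [ha'] at ha; rw [hb'] at hb; linarith
  · left; apply e1
    refine ⟨n * b - m * a, ?_⟩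
    linear_combination n * hb - m * ha
  · right; left; apply e2
    refine ⟨m * a - n * b, ?_⟩
    linear_combination m * ha - n * hb
  · right; right; apply e3
    refine ⟨(n - m) * a - n * (a - b), ?_⟩
    linear_combination (n - m) * ha - n * (ha - hb)

end Invol

namespace MGraph

variable {V E : Type}

/-- the involution of a colour -/
noncomputable def iv (G : MGraph V E) {k : ℕ} {c : E → Option (Fin k)} (hc : G.PP c) (a : Fin k) :
    Equiv.Perm V := (G.nb_invol hc a).toPerm

lemma iv_apply (G : MGraph V E) {k : ℕ} {c : E → Option (Fin k)} (hc : G.PP c) (a : Fin k) (v : V) :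
    G.iv hc a v = G.nb c a v := rfl

lemma iv_sq (G : MGraph V E) {k : ℕ} {c : E → Option (Fin k)} (hc : G.PP c) (a : Fin k) :
    G.iv hc a * G.iv hc a = 1 := by
  ext v
  simp [iv_apply, G.nb_invol hc a v]

/-- the component of `x`, where `a` is missing at `x` -/
def orb (G : MGraph V E) {k : ℕ} {c : E → Option (Fin k)} (hc : G.PP c) (a b : Fin k)
    (x : V) : Set V := {v | ∃ n : ℤ, v = ((G.iv hc a * G.iv hc b) ^ n) x}

lemma orb_closed (G : MGraph V E) {k : ℕ} {c : E → Option (Fin k)} (hc : G.PP c) (a b : Fin k)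
    (x : V) (hx : G.Miss c x a) :
    ∀ e u w, u ∈ G.ends e → w ∈ G.ends e → (c e = some a ∨ c e = some b) →
      u ∈ G.orb hc a b x → w ∈ G.orb hc a b x := by
  have hs := G.iv_sq hc a
  have ht := G.iv_sq hc b
  have hsx : G.iv hc a x = x := by rw [iv_apply]; exact G.nb_miss hx
  rintro e u w hu hw hcol ⟨n, hn⟩
  by_cases huw : w = u
  · exact ⟨n, by rw [huw, hn]⟩
  have hends : G.ends e = s(u, w) := by
    exact (Sym2.mem_and_mem_iff (Ne.symm huw)).mp ⟨hu, hw⟩
  rcases hcol with hcol | hcol
  · refine ⟨-n, ?_⟩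
    rw [← dih_s _ _ hs ht x hsx, ← hn, iv_apply, G.nb_eq hc hcol hends]
  · refine ⟨-n - 1, ?_⟩
    rw [← dih_t _ _ hs ht x hsx, ← hn, iv_apply, G.nb_eq hc hcol hends]

lemma self_mem_orb (G : MGraph V E) {k : ℕ} {c : E → Option (Fin k)} (hc : G.PP c) (a b : Fin k)
    (x : V) : x ∈ G.orb hc a b x := ⟨0, by simp⟩

/-- Exchange of `a` and `b` on the component of `x`, where `a` is missing at `x`. -/
lemma swap_comp (G : MGraph V E) {k : ℕ} {c : E → Option (Fin k)} (hc : G.PP c) (a b : Fin k)
    (x : V) (hx : G.Miss c x a) :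
    ∃ c' : E → Option (Fin k), G.PP c' ∧ (∀ e, c' e = none ↔ c e = none) ∧
      (∀ e y, y ≠ a → y ≠ b → (c' e = some y ↔ c e = some y)) ∧ G.Miss c' x b ∧
      (∀ v, (¬ ∃ n : ℤ, v = ((G.iv hc a * G.iv hc b) ^ n) x) →
        ∀ y, G.Miss c v y → G.Miss c' v y) := by
  obtain ⟨c', h1, h2, h3, h4, h5, _⟩ := G.swap_on hc a b _ (G.orb_closed hc a b x hx)
  refine ⟨c', h1, h2, h3, ?_, fun v hv y => h5 v hv y⟩
  have := h4 x (G.self_mem_orb hc a b x) a hx
  simpa using this

lemma kempe_three [Finite V] (G : MGraph V E) {k : ℕ} {c : E → Option (Fin k)} (hc : G.PP c)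
    (a b : Fin k) (x u w : V) (hx : G.Miss c x a) (hu : G.Miss c u b) (hw : G.Miss c w b)
    (hxu : x ≠ u) (hxw : x ≠ w) (huw : u ≠ w) :
    ∃ c' : E → Option (Fin k), G.PP c' ∧ (∀ e, c' e = none ↔ c e = none) ∧
      (∀ e y, y ≠ a → y ≠ b → (c' e = some y ↔ c e = some y)) ∧ G.Miss c' x b ∧
      (G.Miss c' u b ∨ G.Miss c' w b) := by
  obtain ⟨c', h1, h2, h3, h4, h5⟩ := G.swap_comp hc a b x hx
  refine ⟨c', h1, h2, h3, h4, ?_⟩
  by_cases h6 : ∃ n : ℤ, u = ((G.iv hc a * G.iv hc b) ^ n) x
  · by_cases h7 : ∃ n : ℤ, w = ((G.iv hc a * G.iv hc b) ^ n) x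
    · exfalso
      obtain ⟨n, hn⟩ := h6
      obtain ⟨m, hm⟩ := h7
      have := three_fixed _ _ (G.iv_sq hc a) (G.iv_sq hc b) x u w
        (by rw [iv_apply]; exact G.nb_miss hx) n m hn hm
        (Or.inr (by rw [iv_apply]; exact G.nb_miss hu))
        (Or.inr (by rw [iv_apply]; exact G.nb_miss hw))
      rcases this with h | h | h
      · exact hxu h
      · exact hxw h
      · exact huw h
    · exact Or.inr (h5 w h7 b hw)
  · exact Or.inl (h5 u h6 b hu)

end MGraph

namespace MGraph

variable {V E : Type}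

/-- cyclic successor below `l` -/
def nx (l i : ℕ) : ℕ := if i + 1 = l then 0 else i + 1

lemma nx_lt {l i : ℕ} (hi : i < l) : nx l i < l := by
  unfold nx; split_ifs <;> omega

lemma nx_inj {l i j : ℕ} (h : nx l i = nx l j) : i = j := by
  unfold nx at h; split_ifs at h <;> omega

lemma mod_eq_nx {l i : ℕ} (hi : i < l) : (i + 1) % l = nx l i := by
  unfold nx
  split_ifs with h
  · rw [h, Nat.mod_self]
  · exact Nat.mod_eq_of_lt (by omega)

/-- An uncoloured odd cycle all of whose vertices miss the two colours `α`, `β`. -/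
structure State (G : MGraph V E) {k : ℕ} (l : ℕ) (v : ℕ → V) (f : ℕ → E) (α β : Fin k)
    (c : E → Option (Fin k)) : Prop where
  pp : G.PP c
  inj : ∀ i < l, ∀ j < l, v i = v j → i = j
  ed : ∀ i < l, G.ends (f i) = s(v i, v (nx l i))
  none_iff : ∀ e, c e = none ↔ ∃ i < l, e = f i
  ma : ∀ i < l, G.Miss c (v i) α
  mb : ∀ i < l, G.Miss c (v i) β
  ne : α ≠ β

lemma edge_inj (G : MGraph V E) {l : ℕ} {v : ℕ → V} {f : ℕ → E} (hl : 3 ≤ l)
    (inj : ∀ i < l, ∀ j < l, v i = v j → i = j)
    (ed : ∀ i < l, G.ends (f i) = s(v i, v (nx l i))) :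
    ∀ i < l, ∀ j < l, f i = f j → i = j := by
  intro i hi j hj h
  have h1 := ed i hi
  rw [h, ed j hj, Sym2.eq_iff] at h1
  rcases h1 with ⟨h1, _⟩ | ⟨h1, h2⟩
  · exact (inj j hj i hi h1).symm
  · have h3 := inj _ hj _ (nx_lt hi) h1
    have h4 := inj _ (nx_lt hj) _ hi h2
    unfold nx at h3 h4
    split_ifs at h3 h4 <;> omega

lemma State.adj {G : MGraph V E} {k l : ℕ} {v : ℕ → V} {f : ℕ → E} {α β : Fin k}
    {c : E → Option (Fin k)} (h : G.State l v f α β c) (hl : 3 ≤ l) (hodd : l % 2 = 1)
    (hG : ¬ G.Colorable k) {i : ℕ} (hi : i + 1 < l) {γ : Fin k} (hγα : γ ≠ α) (hγβ : γ ≠ β)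
    (h1 : G.Miss c (v i) γ) (h2 : G.Miss c (v (i + 1)) γ) : False := by
  classical
  have finj := G.edge_inj hl h.inj h.ed
  let code : ℕ → ℕ := fun j => if j = i then 2 else
    if (i < j ∧ (j - i) % 2 = 1) ∨ (j < i ∧ (i - j) % 2 = 0) then 0 else 1
  have code_ne : ∀ j < l, code j ≠ code (nx l j) := by
    intro j hj
    have hcase : (j + 1 = l ∧ nx l j = 0) ∨ (j + 1 < l ∧ nx l j = j + 1) := by
      unfold nx
      split_ifs <;> omega
    rcases hcase with ⟨h3, h4⟩ | ⟨h3, h4⟩
    · rw [h4]
      simp only [code]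
      split_ifs <;> omega
    · rw [h4]
      simp only [code]
      split_ifs <;> omega
  have code_lt : ∀ j, code j < 3 := by
    intro j
    simp only [code]
    split_ifs <;> omega
  have code_two : ∀ j, code j = 2 → j = i := by
    intro j hj2
    simp only [code] at hj2
    split_ifs at hj2 <;> omega
  let C : ℕ → Fin k := fun n => if n = 2 then γ else if n = 0 then α else β
  have C_inj : ∀ m n, m < 3 → n < 3 → C m = C n → m = n := by
    intro m n hm hn hmn
    have hne := h.ne
    interval_cases m <;> interval_cases n <;> simp [C] at hmn ⊢ <;>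
      first | exact hne hmn | exact hne hmn.symm | exact hγα hmn | exact hγα hmn.symm |
        exact hγβ hmn | exact hγβ hmn.symm
  let d : E → Option (Fin k) := fun e =>
    if h : ∃ j, j < l ∧ e = f j then some (C (code h.choose)) else c e
  have d1 : ∀ j < l, d (f j) = some (C (code j)) := by
    intro j hj
    have hh : ∃ j', j' < l ∧ f j = f j' := ⟨j, hj, rfl⟩
    simp only [d]
    rw [dif_pos hh]
    have := finj _ hj _ hh.choose_spec.1 hh.choose_spec.2
    rw [← this]
  have d2 : ∀ e, (¬ ∃ j, j < l ∧ e = f j) → d e = c e := by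
    intro e he
    simp only [d]
    rw [dif_neg he]
  have hmiss : ∀ j < l, ∀ u, u ∈ G.ends (f j) → G.Miss c u (C (code j)) := by
    intro j hj u hu
    rw [h.ed j hj, Sym2.mem_iff] at hu
    have hc3 := code_lt j
    rcases Nat.lt_or_ge (code j) 2 with hc | hc
    · have : code j = 0 ∨ code j = 1 := by omega
      rcases this with hc | hc
      · have : C (code j) = α := by simp [C, hc]
        rw [this]
        rcases hu with rfl | rfl
        · exact h.ma j hj
        · exact h.ma _ (nx_lt hj)
      · have : C (code j) = β := by simp [C, hc]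
        rw [this]
        rcases hu with rfl | rfl
        · exact h.mb j hj
        · exact h.mb _ (nx_lt hj)
    · have hc : code j = 2 := by omega
      have hji := code_two j hc
      have : C (code j) = γ := by simp [C, hc]
      rw [this]
      subst hji
      have hnx : nx l j = j + 1 := by unfold nx; split_ifs <;> omega
      rw [hnx] at hu
      rcases hu with rfl | rfl
      · exact h1
      · exact h2
  apply hG
  apply G.colorable_of_total d
  · intro e e' u a he he' hde hde'
    by_cases hce : ∃ j, j < l ∧ e = f j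
    · obtain ⟨j, hj, rfl⟩ := hce
      by_cases hce' : ∃ j, j < l ∧ e' = f j
      · obtain ⟨j', hj', rfl⟩ := hce'
        rw [d1 j hj] at hde
        rw [d1 j' hj'] at hde'
        have hcc : code j = code j' := by
          apply C_inj _ _ (code_lt j) (code_lt j')
          have := hde.trans hde'.symm
          exact Option.some.inj this
        rw [h.ed j hj, Sym2.mem_iff] at he
        rw [h.ed j' hj', Sym2.mem_iff] at he'
        rcases he with he | he <;> rcases he' with he' | he'
        · rw [h.inj j hj j' hj' (he.symm.trans he')]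
        · have := h.inj j hj _ (nx_lt hj') (he.symm.trans he')
          exact absurd (by rw [← this, hcc]) (code_ne j' hj')
        · have := h.inj _ (nx_lt hj) j' hj' (he.symm.trans he')
          exact absurd (by rw [this, hcc]) (code_ne j hj)
        · have := h.inj _ (nx_lt hj) _ (nx_lt hj') (he.symm.trans he')
          rw [nx_inj this]
      · exfalso
        rw [d2 e' hce'] at hde'
        rw [d1 j hj] at hde
        have := hmiss j hj u he e' he'
        rw [hde', ← hde] at this
        exact this rfl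
    · rw [d2 e hce] at hde
      by_cases hce' : ∃ j, j < l ∧ e' = f j
      · exfalso
        obtain ⟨j', hj', rfl⟩ := hce'
        rw [d1 j' hj'] at hde'
        have := hmiss j' hj' u he' e he
        rw [hde, ← hde'] at this
        exact this rfl
      · rw [d2 e' hce'] at hde'
        exact h.pp e e' u a he he' hde hde'
  · intro e
    by_cases hce : ∃ j, j < l ∧ e = f j
    · obtain ⟨j, hj, rfl⟩ := hce
      rw [d1 j hj]
      simp
    · rw [d2 e hce]
      intro hn
      obtain ⟨j, hj, hej⟩ := (h.none_iff e).mp hn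
      exact hce ⟨j, hj, hej⟩

/-- The colours other than `α`, `β` missing at `u`. -/
noncomputable def ms (G : MGraph V E) {k : ℕ} (c : E → Option (Fin k)) (α β : Fin k) (u : V) :
    Finset (Fin k) := by
  classical exact Finset.univ.filter (fun a => a ≠ α ∧ a ≠ β ∧ G.Miss c u a)

lemma mem_ms (G : MGraph V E) {k : ℕ} {c : E → Option (Fin k)} {α β : Fin k} {u : V} {a : Fin k} :
    a ∈ G.ms c α β u ↔ a ≠ α ∧ a ≠ β ∧ G.Miss c u a := by
  classical
  simp [ms]

lemma degree_eq [Fintype E] [DecidableEq E] (G : MGraph V E) (u : V)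
    [DecidablePred fun e => u ∈ G.ends e] :
    G.degree u = (Finset.univ.filter (fun e => u ∈ G.ends e)).card := by
  unfold degree
  rw [Nat.card_eq_fintype_card, Fintype.card_subtype]

lemma State.card_ms [Finite E] {G : MGraph V E} {k l : ℕ} {v : ℕ → V} {f : ℕ → E} {α β : Fin k}
    {c : E → Option (Fin k)} (h : G.State l v f α β c) (hl : 3 ≤ l) {Δ : ℕ}
    (hdeg : ∀ u, G.degree u ≤ Δ) {i : ℕ} (hi : i < l) : k ≤ (G.ms c α β (v i)).card + Δ := by
  classical
  have := Fintype.ofFinite E
  have finj := G.edge_inj hl h.inj h.ed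
  obtain ⟨j, hj, hji⟩ : ∃ j, j < l ∧ nx l j = i := by
    rcases Nat.eq_zero_or_pos i with h0 | h0
    · exact ⟨l - 1, by omega, by unfold nx; split_ifs <;> omega⟩
    · exact ⟨i - 1, by omega, by unfold nx; split_ifs <;> omega⟩
  have hij : i ≠ j := by
    rintro rfl
    unfold nx at hji
    split_ifs at hji <;> omega
  set A := Finset.univ.filter (fun e => v i ∈ G.ends e) with hA
  set B := A.filter (fun e => c e ≠ none) with hB
  have h1 : B.card + 2 ≤ A.card := by
    have h2 : ({f i, f j} : Finset E).card = 2 := by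
      rw [Finset.card_pair]
      intro hf
      exact hij (finj i hi j hj hf)
    have h3 : B ∪ {f i, f j} ⊆ A := by
      intro e he
      rw [Finset.mem_union] at he
      rcases he with he | he
      · exact (Finset.mem_filter.mp he).1
      · rw [hA, Finset.mem_filter]
        refine ⟨Finset.mem_univ _, ?_⟩
        simp only [Finset.mem_insert, Finset.mem_singleton] at he
        rcases he with rfl | rfl
        · rw [h.ed i hi]; simp
        · rw [h.ed j hj, hji]; simp
    have h4 : Disjoint B {f i, f j} := by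
      rw [Finset.disjoint_left]
      intro e he he'
      have h5 := (Finset.mem_filter.mp he).2
      apply h5
      rw [h.none_iff]
      simp only [Finset.mem_insert, Finset.mem_singleton] at he'
      rcases he' with rfl | rfl
      · exact ⟨i, hi, rfl⟩
      · exact ⟨j, hj, rfl⟩
    rw [← h2, ← Finset.card_union_of_disjoint h4]
    exact Finset.card_le_card h3
  have h2 : A.card ≤ Δ := by
    rw [hA, ← degree_eq]
    exact hdeg _
  set P := Finset.univ.filter (fun a : Fin k => ¬ G.Miss c (v i) a) with hP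
  have h3 : P.card ≤ B.card := by
    have : P ⊆ B.image (fun e => (c e).getD α) := by
      intro a ha
      rw [hP, Finset.mem_filter] at ha
      have ha := ha.2
      unfold Miss at ha
      push Not at ha
      obtain ⟨e, he, hea⟩ := ha
      rw [Finset.mem_image]
      refine ⟨e, ?_, by simp [hea]⟩
      rw [hB, Finset.mem_filter, hA, Finset.mem_filter]
      exact ⟨⟨Finset.mem_univ _, he⟩, by simp [hea]⟩
    exact (Finset.card_le_card this).trans Finset.card_image_le
  have h4 : (Finset.univ : Finset (Fin k)) ⊆ (G.ms c α β (v i) ∪ P) ∪ {α, β} := by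
    intro a _
    simp only [Finset.mem_union, mem_ms, Finset.mem_insert, Finset.mem_singleton, hP,
      Finset.mem_filter, Finset.mem_univ, true_and]
    tauto
  have h5 := Finset.card_le_card h4
  rw [Finset.card_univ, Fintype.card_fin] at h5
  have h6 := Finset.card_union_le (G.ms c α β (v i) ∪ P) {α, β}
  have h7 := Finset.card_union_le (G.ms c α β (v i)) P
  have h8 : ({α, β} : Finset (Fin k)).card ≤ 2 := Finset.card_le_two
  omega

lemma State.disj [Finite V] {G : MGraph V E} {k l : ℕ} {v : ℕ → V} {f : ℕ → E} {α β : Fin k}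
    (hl : 3 ≤ l) (hodd : l % 2 = 1)
    (hG : ¬ G.Colorable k)
    (hex : ∀ c : E → Option (Fin k), G.State l v f α β c → ∀ i < l, (G.ms c α β (v i)).Nonempty)
    (n : ℕ) : ∀ (c : E → Option (Fin k)), G.State l v f α β c →
      ∀ i j, i < j → j < l → j - i = n → ∀ γ, γ ≠ α → γ ≠ β → G.Miss c (v i) γ →
      G.Miss c (v j) γ → False := by
  induction n with
  | zero => intro c _ i j hij _ hn; omega
  | succ n ih =>
    intro c h i j hij hj hn γ hγα hγβ hi' hj'
    by_cases hadj : j = i + 1
    · subst hadj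
      exact h.adj hl hodd hG hj hγα hγβ hi' hj'
    obtain ⟨δ, hδ⟩ := hex c h (i + 1) (by omega)
    rw [mem_ms] at hδ
    obtain ⟨hδα, hδβ, hδm⟩ := hδ
    have inj := h.inj
    obtain ⟨c', h1, h2, h3, h4, h5⟩ := G.kempe_three h.pp δ γ (v (i + 1)) (v i) (v j) hδm hi' hj'
      (fun hh => by have := inj _ (by omega) _ (by omega) hh; omega)
      (fun hh => by have := inj _ (by omega) _ (by omega) hh; omega)
      (fun hh => by have := inj _ (by omega) _ (by omega) hh; omega)
    have h' : G.State l v f α β c' := by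
      refine ⟨h1, h.inj, h.ed, fun e => by rw [h2 e, h.none_iff], ?_, ?_, h.ne⟩
      · intro i hi e he
        rw [Ne, h3 e α hδα.symm hγα.symm]
        exact h.ma i hi e he
      · intro i hi e he
        rw [Ne, h3 e β hδβ.symm hγβ.symm]
        exact h.mb i hi e he
    rcases h5 with h5 | h5
    · exact h'.adj hl hodd hG (by omega) hγα hγβ h5 h4
    · exact ih c' h' (i + 1) j (by omega) hj (by omega) γ hγα hγβ h4 h5

lemma State.bound [Finite V] [Finite E] {G : MGraph V E} {k l : ℕ} {v : ℕ → V} {f : ℕ → E}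
    {α β : Fin k} (hl : 3 ≤ l) (hodd : l % 2 = 1) (hG : ¬ G.Colorable k) {Δ : ℕ}
    (hdeg : ∀ u, G.degree u ≤ Δ) (hk : Δ + 1 ≤ k) {c : E → Option (Fin k)}
    (h : G.State l v f α β c) : l * (k - Δ) + 2 ≤ k := by
  classical
  have hex : ∀ c : E → Option (Fin k), G.State l v f α β c →
      ∀ i < l, (G.ms c α β (v i)).Nonempty := by
    intro c h i hi
    have := h.card_ms hl hdeg hi
    rw [← Finset.card_pos]
    omega
  have hdisj : ∀ i ∈ Finset.range l, ∀ j ∈ Finset.range l, i ≠ j →
      Disjoint (G.ms c α β (v i)) (G.ms c α β (v j)) := by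
    intro i hi j hj hij
    rw [Finset.mem_range] at hi hj
    rw [Finset.disjoint_left]
    intro γ h1 h2
    rw [mem_ms] at h1 h2
    rcases Nat.lt_or_gt_of_ne hij with hlt | hlt
    · exact State.disj hl hodd hG hex _ c h i j hlt hj rfl γ h1.1 h1.2.1 h1.2.2 h2.2.2
    · exact State.disj hl hodd hG hex _ c h j i hlt hi rfl γ h1.1 h1.2.1 h2.2.2 h1.2.2
  have h1 := Finset.card_biUnion hdisj
  have h2 : (Finset.range l).biUnion (fun i => G.ms c α β (v i)) ⊆
      Finset.univ \ {α, β} := by
    intro a ha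
    rw [Finset.mem_biUnion] at ha
    obtain ⟨i, _, ha⟩ := ha
    rw [mem_ms] at ha
    simp [ha.1, ha.2.1]
  have h3 := Finset.card_le_card h2
  rw [h1, Finset.card_sdiff_of_subset (Finset.subset_univ _), Finset.card_univ, Fintype.card_fin,
    Finset.card_pair h.ne] at h3
  have h4 : l * (k - Δ) ≤ ∑ i ∈ Finset.range l, (G.ms c α β (v i)).card := by
    have : ∑ i ∈ Finset.range l, (k - Δ) ≤ ∑ i ∈ Finset.range l, (G.ms c α β (v i)).card := by
      apply Finset.sum_le_sum
      intro i hi
      have := h.card_ms hl hdeg (Finset.mem_range.mp hi)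
      omega
    simpa using this
  have h5 : 1 ≤ l * (k - Δ) := Nat.mul_pos (by omega) (by omega)
  omega

end MGraph

namespace MGraph

variable {V E : Type}

lemma extract [Finite V] (G : MGraph V E) {k : ℕ} {c : E → Option (Fin k)} (hc : G.PP c) {e0 : E}
    {x y : V} (hends : G.ends e0 = s(x, y)) (hnone : ∀ e, c e = none ↔ e = e0) {α β : Fin k}
    (hαβ : α ≠ β) (hx : G.Miss c x α) (hy : G.Miss c y β) (m0 : ℤ)
    (hym : y = ((G.iv hc α * G.iv hc β) ^ m0) x) :
    ∃ l v f, ∃ c' : E → Option (Fin k), 3 ≤ l ∧ l % 2 = 1 ∧ G.State l v f α β c' := by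
  classical
  have hs := G.iv_sq hc α
  have ht := G.iv_sq hc β
  have hsx : G.iv hc α x = x := by rw [iv_apply]; exact G.nb_miss hx
  obtain ⟨N, hN, hper⟩ := per_iff (G.iv hc α * G.iv hc β) x
  have hPs := dih_s _ _ hs ht x hsx
  have hPt := dih_t _ _ hs ht x hsx
  set P : ℤ → V := fun n => ((G.iv hc α * G.iv hc β) ^ n) x with hP
  have hPs' : ∀ n, G.nb c α (P n) = P (-n) := hPs
  have hPt' : ∀ n, G.nb c β (P n) = P (-n - 1) := hPt
  have hper' : ∀ a b : ℤ, P a = P b ↔ (N : ℤ) ∣ a - b := hper
  have hP0 : P 0 = x := by simp [hP]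
  have hty : G.nb c β y = y := G.nb_miss hy
  have hym' : y = P m0 := hym
  have hdiv : (N : ℤ) ∣ 2 * m0 + 1 := by
    rw [hym', hPt', hper'] at hty
    have : 2 * m0 + 1 = -(-m0 - 1 - m0) := by ring
    rw [this]
    exact (dvd_neg).mpr hty
  obtain ⟨m, hm⟩ : ∃ m : ℕ, N = 2 * m + 1 := by
    rcases Nat.even_or_odd' N with ⟨m, hm | hm⟩
    · exfalso
      obtain ⟨q, hq⟩ := hdiv
      rw [hm] at hq
      push_cast at hq
      have : 2 * (m0 - m * q) = -1 := by linarith
      omega
    · exact ⟨m, hm⟩
  have hym2 : y = P m := by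
    rw [hym', hper']
    obtain ⟨q, hq⟩ := hdiv
    refine ⟨(m0 - m) - m * (q - 1), ?_⟩
    have hNz : (N : ℤ) = 2 * m + 1 := by rw [hm]; push_cast; ring
    rw [hNz] at hq ⊢
    linear_combination (-(m : ℤ)) * hq
  have hxy : x ≠ y := by
    intro h
    apply G.loopless e0
    rw [hends, h]
    simp
  have hm1 : 1 ≤ m := by
    by_contra h0
    have : m = 0 := by omega
    apply hxy
    rw [hym2, this]
    simpa using hP0.symm
  let a : ℕ → ℤ := fun j => if j % 2 = 0 then ((j / 2 : ℕ) : ℤ) else -(((j + 1) / 2 : ℕ) : ℤ)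
  let v : ℕ → V := fun j => P (a j)
  have hinj : ∀ i < N, ∀ j < N, v i = v j → i = j := by
    intro i hi j hj hij
    have h1 : (N : ℤ) ∣ a i - a j := (hper' _ _).mp hij
    have h2 : a i - a j = 0 := by
      apply Int.eq_zero_of_abs_lt_dvd h1
      rw [abs_lt]
      simp only [a]
      split_ifs <;> omega
    simp only [a] at h2
    split_ifs at h2 <;> omega
  have hev : ∀ j, j % 2 = 0 → G.nb c β (v j) = v (j + 1) := by
    intro j hj
    simp only [v]
    rw [hPt']
    congr 1
    simp only [a]
    rw [if_pos hj, if_neg (by omega)]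
    omega
  have hod : ∀ j, j % 2 = 1 → G.nb c α (v j) = v (j + 1) := by
    intro j hj
    simp only [v]
    rw [hPs']
    congr 1
    simp only [a]
    rw [if_neg (by omega), if_pos (by omega)]
    omega
  have hv0 : v 0 = x := by simp [v, a, hP0]
  have hvm : v (2 * m) = y := by
    simp only [v, a]
    rw [if_pos (by omega), hym2]
    congr 1
    omega
  have hf : ∀ j, ∃ e, j < N → (G.ends e = s(v j, v (nx N j)) ∧
      (j + 1 < N → (j % 2 = 0 → c e = some β) ∧ (j % 2 = 1 → c e = some α)) ∧
      (j + 1 = N → e = e0)) := by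
    intro j
    by_cases hj : j < N
    · by_cases hj1 : j + 1 = N
      · refine ⟨e0, fun _ => ⟨?_, fun h => by omega, fun _ => rfl⟩⟩
        have : nx N j = 0 := by unfold nx; rw [if_pos hj1]
        rw [this, hv0, hends, Sym2.eq_swap]
        have : j = 2 * m := by omega
        rw [this, hvm]
      · have hnx : nx N j = j + 1 := by unfold nx; rw [if_neg hj1]
        have hne : v (j + 1) ≠ v j := by
          intro h
          have := hinj (j + 1) (by omega) j hj h
          omega
        rcases Nat.mod_two_eq_zero_or_one j with h2 | h2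
        · have : ¬ G.Miss c (v j) β := by
            rw [← G.miss_iff hc, hev j h2]
            exact hne
          obtain ⟨e, he1, he2⟩ := G.exists_of_not_miss hc this
          rw [hev j h2] at he2
          refine ⟨e, fun _ => ⟨by rw [hnx, he2], fun _ => ⟨fun _ => he1, fun h => by omega⟩,
            fun h => by omega⟩⟩
        · have : ¬ G.Miss c (v j) α := by
            rw [← G.miss_iff hc, hod j h2]
            exact hne
          obtain ⟨e, he1, he2⟩ := G.exists_of_not_miss hc this
          rw [hod j h2] at he2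
          refine ⟨e, fun _ => ⟨by rw [hnx, he2], fun _ => ⟨fun h => by omega, fun _ => he1⟩,
            fun h => by omega⟩⟩
    · exact ⟨e0, fun h => absurd h hj⟩
  choose f hf using hf
  refine ⟨N, v, f, fun e => if ∃ j, j < N ∧ e = f j then none else c e, by omega, by omega, ?_⟩
  have hsome : ∀ e b, (if ∃ j, j < N ∧ e = f j then none else c e) = some b →
      c e = some b ∧ ¬ ∃ j, j < N ∧ e = f j := by
    intro e b h
    split_ifs at h with h1
    exact ⟨h, h1⟩
  refine ⟨?_, hinj, fun i hi => (hf i hi).1, ?_, ?_, ?_, hαβ⟩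
  · intro e e' u b h1 h2 h3 h4
    exact hc e e' u b h1 h2 (hsome e b h3).1 (hsome e' b h4).1
  · intro e
    constructor
    · intro h
      split_ifs at h with h1
      · exact h1
      · rw [hnone] at h
        exact ⟨N - 1, by omega, by rw [h, (hf (N - 1) (by omega)).2.2 (by omega)]⟩
    · intro h
      rw [if_pos h]
  · intro i hi e he h
    obtain ⟨h1, h2⟩ := hsome e α h
    rcases Nat.eq_zero_or_pos i with h0 | h0
    · subst h0
      rw [hv0] at he
      exact hx e he h1
    · rcases Nat.mod_two_eq_zero_or_one i with h3 | h3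
      · have h4 := hf (i - 1) (by omega)
        have h5 := (h4.2.1 (by omega)).2 (by omega)
        have h6 : nx N (i - 1) = i := by unfold nx; rw [if_neg (by omega)]; omega
        exact h2 ⟨i - 1, by omega, hc e _ (v i) α he (by rw [h4.1, h6]; simp) h1 h5⟩
      · have h4 := hf i hi
        have h5 := (h4.2.1 (by omega)).2 h3
        exact h2 ⟨i, hi, hc e _ (v i) α he (by rw [h4.1]; simp) h1 h5⟩
  · intro i hi e he h
    obtain ⟨h1, h2⟩ := hsome e β h
    rcases Nat.mod_two_eq_zero_or_one i with h3 | h3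
    · by_cases h7 : i = 2 * m
      · subst h7
        rw [hvm] at he
        exact hy e he h1
      · have h4 := hf i hi
        have h5 := (h4.2.1 (by omega)).1 h3
        exact h2 ⟨i, hi, hc e _ (v i) β he (by rw [h4.1]; simp) h1 h5⟩
    · have h4 := hf (i - 1) (by omega)
      have h5 := (h4.2.1 (by omega)).1 (by omega)
      have h6 : nx N (i - 1) = i := by unfold nx; rw [if_neg (by omega)]; omega
      exact h2 ⟨i - 1, by omega, hc e _ (v i) β he (by rw [h4.1, h6]; simp) h1 h5⟩

lemma exists_miss [Finite E] (G : MGraph V E) {k : ℕ} (c : E → Option (Fin k)) {Δ : ℕ}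
    (u : V) (hdeg : G.degree u ≤ Δ) (hk : Δ + 1 ≤ k) : ∃ a, G.Miss c u a := by
  classical
  have := Fintype.ofFinite E
  by_contra hcon
  push Not at hcon
  have h1 : ∀ a : Fin k, ∃ e, u ∈ G.ends e ∧ c e = some a := by
    intro a
    have := hcon a
    unfold Miss at this
    push Not at this
    exact this
  choose F hF using h1
  have hinj : Function.Injective F := by
    intro a b hab
    have h1 := (hF a).2
    rw [hab, (hF b).2] at h1
    exact (Option.some.inj h1).symm
  have h2 : (Finset.univ.image F).card = k := by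
    rw [Finset.card_image_of_injective _ hinj, Finset.card_univ, Fintype.card_fin]
  have h3 : Finset.univ.image F ⊆ Finset.univ.filter (fun e => u ∈ G.ends e) := by
    intro e he
    rw [Finset.mem_image] at he
    obtain ⟨a, _, rfl⟩ := he
    simp [(hF a).1]
  have h4 := Finset.card_le_card h3
  rw [h2, ← degree_eq] at h4
  omega

/-- Deleting one edge. -/
def del (G : MGraph V E) (e0 : E) : MGraph V {e : E // e ≠ e0} where
  ends e := G.ends e.1
  loopless e := G.loopless e.1

lemma del_degree [Finite E] (G : MGraph V E) (e0 : E) (u : V) :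
    (G.del e0).degree u ≤ G.degree u := by
  unfold degree
  apply Nat.card_le_card_of_injective
    (fun x : {e : {e : E // e ≠ e0} // u ∈ (G.del e0).ends e} =>
      (⟨x.1.1, x.2⟩ : {e : E // u ∈ G.ends e}))
  intro x y hxy
  have := congrArg Subtype.val hxy
  exact Subtype.ext (Subtype.ext this)

/-- Goldberg's odd girth bound. -/
theorem goldberg [Finite V] {Δ p k : ℕ} (hk : Δ + 1 ≤ k) (hp : Δ < 2 * p * (k - Δ) + 2) (n : ℕ) :
    ∀ (E : Type) [Finite E] (G : MGraph V E), Nat.card E = n → (∀ u, G.degree u ≤ Δ) →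
      (∀ l, 3 ≤ l → l % 2 = 1 → G.HasCycle l → 2 * p + 1 ≤ l) → G.Colorable k := by
  classical
  induction n with
  | zero =>
    intro E _ G hE _ _
    have : IsEmpty E := by
      rcases Nat.card_eq_zero.mp hE with h | h
      · exact h
      · exact absurd ‹Finite E› h.not_finite
    exact ⟨fun e => (this.false e).elim, fun e => (this.false e).elim⟩
  | succ n ih =>
    intro E _ G hE hdeg hcyc
    by_contra hG
    obtain ⟨e0⟩ : Nonempty E := by
      have : 0 < Nat.card E := by omega
      exact (Nat.card_pos_iff.mp this).1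
    have hcard : Nat.card {e : E // e ≠ e0} = n := by
      have := Fintype.ofFinite E
      rw [Nat.card_eq_fintype_card] at hE ⊢
      have h1 := Fintype.card_subtype_compl (fun e : E => e = e0)
      simp only [Fintype.card_subtype_eq] at h1
      rw [hE] at h1
      simpa using h1
    obtain ⟨c0, hc0⟩ := ih {e : E // e ≠ e0} (G.del e0) hcard
      (fun u => (G.del_degree e0 u).trans (hdeg u)) (by
        intro l h1 h2 ⟨v, h3, h4⟩
        refine hcyc l h1 h2 ⟨v, h3, fun i hi => ?_⟩
        obtain ⟨e, he⟩ := h4 i hi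
        exact ⟨e.1, he⟩)
    set c : E → Option (Fin k) := fun e => if h : e ≠ e0 then some (c0 ⟨e, h⟩) else none with hcdef
    have hnone : ∀ e, c e = none ↔ e = e0 := by
      intro e
      simp only [hcdef]
      by_cases h : e = e0
      · simp [h]
      · simp [h]
    have hc : G.PP c := by
      intro e f u a he hf h1 h2
      by_contra hef
      have he0 : e ≠ e0 := fun h => by rw [(hnone e).mpr h] at h1; simp at h1
      have hf0 : f ≠ e0 := fun h => by rw [(hnone f).mpr h] at h2; simp at h2
      have h3 := hc0 ⟨e, he0⟩ ⟨f, hf0⟩ (fun h => hef (congrArg Subtype.val h)) ⟨u, he, hf⟩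
      simp only [hcdef] at h1 h2
      rw [dif_pos he0] at h1
      rw [dif_pos hf0] at h2
      exact h3 (Option.some.inj (h1.trans h2.symm))
    obtain ⟨x, y, hxy⟩ : ∃ x y, G.ends e0 = s(x, y) := by
      induction h : G.ends e0 using Sym2.ind with
      | _ x y => exact ⟨x, y, rfl⟩
    have hext : ∀ c' : E → Option (Fin k), G.PP c' → (∀ e, c' e = none ↔ e = e0) → ∀ a,
        G.Miss c' x a → G.Miss c' y a → False := by
      intro c' hc' hn' a hxa hya
      apply hG
      apply G.colorable_of_total (fun e => if e = e0 then some a else c' e)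
      · intro e f u b he hf h1 h2
        dsimp only at h1 h2
        have hm : u ∈ G.ends e0 → G.Miss c' u a := by
          intro hu
          rw [hxy, Sym2.mem_iff] at hu
          rcases hu with rfl | rfl
          · exact hxa
          · exact hya
        split_ifs at h1 with h3 <;> split_ifs at h2 with h4
        · rw [h3, h4]
        · exfalso
          rw [h3] at he
          have := Option.some.inj h1
          rw [← this] at h2
          exact hm he f hf h2
        · exfalso
          rw [h4] at hf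
          have := Option.some.inj h2
          rw [← this] at h1
          exact hm hf e he h1
        · exact hc' e f u b he hf h1 h2
      · intro e
        split_ifs with h3
        · simp
        · rw [Ne, hn' e]; exact h3
    obtain ⟨α, hα⟩ := G.exists_miss c x (hdeg x) hk
    obtain ⟨β, hβ⟩ := G.exists_miss c y (hdeg y) hk
    by_cases hαβ : α = β
    · subst hαβ
      exact hext c hc hnone α hα hβ
    by_cases hyc : ∃ m0 : ℤ, y = ((G.iv hc α * G.iv hc β) ^ m0) x
    · obtain ⟨m0, hm0⟩ := hyc
      obtain ⟨l, v, f, c', hl, hodd, hst⟩ := G.extract hc hxy hnone hαβ hα hβ m0 hm0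
      have h1 := hst.bound hl hodd hG hdeg hk
      have h2 := hcyc l hl hodd ⟨v, hst.inj, fun i hi => ⟨f i, by rw [mod_eq_nx hi, hst.ed i hi]⟩⟩
      have h3 : (2 * p + 1) * (k - Δ) ≤ l * (k - Δ) := Nat.mul_le_mul_right _ h2
      have h4 : (2 * p + 1) * (k - Δ) = 2 * p * (k - Δ) + (k - Δ) := by ring
      omega
    · obtain ⟨c', h1, h2, h3, h4, h5⟩ := G.swap_comp hc α β x hα
      exact hext c' h1 (fun e => by rw [h2, hnone]) β h4 (h5 y hyc β hβ)

end MGraph

namespace MGraph

variable {V E : Type}

/-! ### Kierstead paths -/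

/-- A Kierstead path with vertices `y 0, ..., y m`, whose first edge is the only uncoloured
edge. -/
structure KP (G : MGraph V E) {k : ℕ} (m : ℕ) (y : ℕ → V) (e : ℕ → E)
    (c : E → Option (Fin k)) : Prop where
  pp : G.PP c
  inj : ∀ i ≤ m, ∀ j ≤ m, y i = y j → i = j
  ed : ∀ i < m, G.ends (e i) = s(y i, y (i + 1))
  none_iff : ∀ x, c x = none ↔ x = e 0
  col : ∀ j, 1 ≤ j → j < m → ∃ i ≤ j, ∃ a, c (e j) = some a ∧ G.Miss c (y i) a

lemma KP.mono {G : MGraph V E} {k m : ℕ} {y : ℕ → V} {e : ℕ → E} {c : E → Option (Fin k)}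
    (h : G.KP m y e c) {m' : ℕ} (hm : m' ≤ m) : G.KP m' y e c :=
  ⟨h.pp, fun i hi j hj => h.inj i (by omega) j (by omega), fun i hi => h.ed i (by omega),
    h.none_iff, fun j h1 h2 => h.col j h1 (by omega)⟩

lemma pp_update (G : MGraph V E) [DecidableEq E] {k : ℕ} {c : E → Option (Fin k)} (hc : G.PP c)
    {e0 : E} {x y : V} (hends : G.ends e0 = s(x, y)) {a : Fin k} (hx : G.Miss c x a)
    (hy : G.Miss c y a) : G.PP (Function.update c e0 (some a)) := by
  have hm : ∀ u, u ∈ G.ends e0 → G.Miss c u a := by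
    intro u hu
    rw [hends, Sym2.mem_iff] at hu
    rcases hu with rfl | rfl
    · exact hx
    · exact hy
  intro e f u b he hf h1 h2
  by_cases h3 : e = e0
  · by_cases h4 : f = e0
    · rw [h3, h4]
    · exfalso
      subst h3
      rw [Function.update_self] at h1
      rw [Function.update_of_ne h4] at h2
      rw [← Option.some.inj h1] at h2
      exact hm u he f hf h2
  · by_cases h4 : f = e0
    · exfalso
      subst h4
      rw [Function.update_self] at h2
      rw [Function.update_of_ne h3] at h1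
      rw [← Option.some.inj h2] at h1
      exact hm u hf e he h1
    · rw [Function.update_of_ne h3] at h1
      rw [Function.update_of_ne h4] at h2
      exact hc e f u b he hf h1 h2

/-- Kierstead's theorem: the sets of colours missing at the vertices of a Kierstead path are
pairwise disjoint. -/
lemma KP.disj {G : MGraph V E} [Finite V] {k : ℕ} (hG : ¬ G.Colorable k)
    (hex : ∀ (c : E → Option (Fin k)) (u : V), ∃ a, G.Miss c u a) (y : ℕ → V) (e : ℕ → E)
    (m : ℕ) : ∀ (c : E → Option (Fin k)), G.KP m y e c → 1 ≤ m →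
      ∀ i j, i < j → j ≤ m → ∀ a, G.Miss c (y i) a → G.Miss c (y j) a → False := by
  classical
  induction m using Nat.strong_induction_on with
  | _ m IH =>
  have key : ∀ n, ∀ c : E → Option (Fin k), G.KP m y e c → ∀ i, i + 1 + n = m → ∀ a,
      G.Miss c (y i) a → G.Miss c (y m) a → False := by
    intro n
    induction n with
    | zero =>
      intro c h i him a hi hm
      have hends : G.ends (e i) = s(y i, y m) := by
        rw [h.ed i (by omega)]
        congr 3
      have hpp := G.pp_update h.pp hends hi hm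
      rcases Nat.eq_zero_or_pos i with h0 | h0
      · subst h0
        apply hG
        refine G.colorable_of_total _ hpp (fun x => ?_)
        by_cases hx : x = e 0
        · rw [hx, Function.update_self]; simp
        · rw [Function.update_of_ne hx, Ne, h.none_iff]; exact hx
      · obtain ⟨i', hi', b, hb1, hb2⟩ := h.col i h0 (by omega)
        have hine : i' ≠ i := by
          rintro rfl
          exact hb2 (e i') (by rw [hends]; simp) hb1
        have hba : b ≠ a := by
          rintro rfl
          exact hm (e i) (by rw [hends]; simp) hb1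
        have hinj : ∀ j, j < i → e j ≠ e i := by
          intro j hj hje
          have h1 := h.ed j (by omega)
          rw [hje, hends, Sym2.eq_iff] at h1
          rcases h1 with ⟨h1, _⟩ | ⟨h1, h2⟩
          · have := h.inj _ (by omega) _ (by omega) h1
            omega
          · have h3 := h.inj _ (by omega) _ (by omega) h1
            have h4 := h.inj _ (by omega) _ (by omega) h2
            omega
        have hnot : ∀ j, j < i → y j ∉ G.ends (e i) := by
          intro j hj hmem
          rw [hends, Sym2.mem_iff] at hmem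
          rcases hmem with h1 | h1
          · have := h.inj _ (by omega) _ (by omega) h1; omega
          · have := h.inj _ (by omega) _ (by omega) h1; omega
        have hmiss : ∀ j, j < i → ∀ b, G.Miss c (y j) b →
            G.Miss (Function.update c (e i) (some a)) (y j) b := by
          intro j hj b hb x hx
          have hxe : x ≠ e i := fun hh => hnot j hj (hh ▸ hx)
          rw [Function.update_of_ne hxe]
          exact hb x hx
        have hKP : G.KP i y e (Function.update c (e i) (some a)) := by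
          refine ⟨hpp, fun j hj j' hj' => h.inj j (by omega) j' (by omega),
            fun j hj => h.ed j (by omega), fun x => ?_, fun j h1 h2 => ?_⟩
          · by_cases hx : x = e i
            · rw [hx, Function.update_self]
              constructor
              · intro hh; simp at hh
              · intro hh; exact absurd hh.symm (hinj 0 h0)
            · rw [Function.update_of_ne hx]; exact h.none_iff x
          · obtain ⟨i2, hi2, b2, hb3, hb4⟩ := h.col j h1 (by omega)
            refine ⟨i2, hi2, b2, ?_, hmiss i2 (by omega) b2 hb4⟩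
            rw [Function.update_of_ne (hinj j h2)]
            exact hb3
        refine IH i (by omega) _ hKP h0 i' i (by omega) le_rfl b (hmiss i' (by omega) b hb2) ?_
        intro x hx
        by_cases hxe : x = e i
        · rw [hxe, Function.update_self]
          intro hh
          exact hba (Option.some.inj hh).symm
        · rw [Function.update_of_ne hxe]
          intro hh
          exact hxe (h.pp x (e i) (y i) b hx (by rw [hends]; simp) hh hb1)
    | succ n ihn =>
      intro c h i him a hi hm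
      obtain ⟨δ, hδ⟩ := hex c (y (i + 1))
      have ha1 : ¬ G.Miss c (y (i + 1)) a := fun hh =>
        IH (i + 1) (by omega) c (h.mono (by omega)) (by omega) i (i + 1) (by omega) le_rfl a hi hh
      have hδa : δ ≠ a := by
        rintro rfl
        exact ha1 hδ
      have hF : ∀ j, 1 ≤ j → j ≤ i → ∀ b, c (e j) = some b → b ≠ a ∧ b ≠ δ := by
        intro j hj1 hj2 b hb
        obtain ⟨i', hi', b', hb1, hb2⟩ := h.col j hj1 (by omega)
        rw [hb1] at hb
        have hbb := Option.some.inj hb
        subst hbb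
        have hii : i' < i := by
          rcases Nat.lt_or_ge i' i with h1 | h1
          · exact h1
          · exfalso
            have h2 : i' = j := by omega
            have h3 : j = i := by omega
            subst h2
            exact hb2 (e i') (by rw [h.ed i' (by omega)]; simp) hb1
        constructor
        · rintro rfl
          exact IH i (by omega) c (h.mono (by omega)) (by omega) i' i hii le_rfl _ hb2 hi
        · rintro rfl
          exact IH (i + 1) (by omega) c (h.mono (by omega)) (by omega) i' (i + 1) (by omega)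
            le_rfl _ hb2 hδ
      have hcl := G.orb_closed h.pp δ a (y (i + 1)) hδ
      by_cases hio : y i ∈ G.orb h.pp δ a (y (i + 1))
      · have hmo : y m ∉ G.orb h.pp δ a (y (i + 1)) := by
          intro hmo
          obtain ⟨n1, hn1⟩ := hio
          obtain ⟨n2, hn2⟩ := hmo
          have := three_fixed _ _ (G.iv_sq h.pp δ) (G.iv_sq h.pp a) (y (i + 1)) (y i) (y m)
            (by rw [iv_apply]; exact G.nb_miss hδ) n1 n2 hn1 hn2
            (Or.inr (by rw [iv_apply]; exact G.nb_miss hi))
            (Or.inr (by rw [iv_apply]; exact G.nb_miss hm))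
          rcases this with h1 | h1 | h1
          · have := h.inj _ (by omega) _ (by omega) h1; omega
          · have := h.inj _ (by omega) _ (by omega) h1; omega
          · have := h.inj _ (by omega) _ (by omega) h1; omega
        obtain ⟨c', h1, h2, h3, h4, h5, _⟩ := G.swap_on h.pp δ a
          {v | v ∉ G.orb h.pp δ a (y (i + 1))} (by
            intro x u w hu hw hcol huK hwK
            exact huK (hcl x w u hw hu hcol hwK))
        have hi' : G.Miss c' (y i) a := h5 _ (fun hh => hh hio) a hi
        have hi1' : G.Miss c' (y (i + 1)) δ :=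
          h5 _ (fun hh => hh (G.self_mem_orb h.pp δ a _)) δ hδ
        have hm' : G.Miss c' (y m) δ := by
          have := h4 (y m) hmo a hm
          simpa using this
        have hKP : G.KP m y e c' := by
          refine ⟨h1, h.inj, h.ed, fun x => by rw [h2, h.none_iff], fun j hj1 hj2 => ?_⟩
          obtain ⟨i', hi'', b, hb1, hb2⟩ := h.col j hj1 hj2
          by_cases hb : b ≠ δ ∧ b ≠ a
          · refine ⟨i', hi'', b, (h3 _ _ hb.1 hb.2).mpr hb1, fun x hx => ?_⟩
            rw [Ne, h3 _ _ hb.1 hb.2]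
            exact hb2 x hx
          · have hij : i + 1 ≤ j := by
              by_contra hcon
              have := hF j hj1 (by omega) b hb1
              exact hb ⟨this.2, this.1⟩
            have hn : c' (e j) ≠ none := by
              rw [Ne, h2, hb1]
              simp
            obtain ⟨b', hb'⟩ := Option.ne_none_iff_exists'.mp hn
            by_cases h6 : b' = a
            · exact ⟨i, by omega, a, by rw [hb', h6], hi'⟩
            · by_cases h7 : b' = δ
              · exact ⟨i + 1, hij, δ, by rw [hb', h7], hi1'⟩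
              · exfalso
                rw [h3 _ _ h7 h6, hb1] at hb'
                have := Option.some.inj hb'
                subst this
                exact hb ⟨h7, h6⟩
        exact ihn c' hKP (i + 1) (by omega) δ hi1' hm'
      · obtain ⟨c', h1, h2, h3, h4, h5, _⟩ := G.swap_on h.pp δ a _ hcl
        have hi' : G.Miss c' (y i) a := h5 _ hio a hi
        have hi1' : G.Miss c' (y (i + 1)) a := by
          have := h4 _ (G.self_mem_orb h.pp δ a (y (i + 1))) δ hδ
          simpa using this
        have hKP : G.KP (i + 1) y e c' := by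
          refine ⟨h1, (h.mono (by omega)).inj, (h.mono (m' := i + 1) (by omega)).ed,
            fun x => by rw [h2, h.none_iff], fun j hj1 hj2 => ?_⟩
          obtain ⟨i', hi'', b, hb1, hb2⟩ := h.col j hj1 (by omega)
          have hb := hF j hj1 (by omega) b hb1
          refine ⟨i', hi'', b, (h3 _ _ hb.2 hb.1).mpr hb1, fun x hx => ?_⟩
          rw [Ne, h3 _ _ hb.2 hb.1]
          exact hb2 x hx
        exact IH (i + 1) (by omega) c' hKP (by omega) i (i + 1) (by omega) le_rfl a hi' hi1'
  intro c h hm i j hij hjm a hi hj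
  rcases Nat.lt_or_ge j m with hlt | hge
  · exact IH j hlt c (h.mono (by omega)) (by omega) i j hij le_rfl a hi hj
  · have : j = m := by omega
    subst this
    exact key (j - i - 1) c h i (by omega) a hi hj

end MGraph

namespace MGraph

variable {V E : Type}

lemma State.rot {G : MGraph V E} {k l : ℕ} {v : ℕ → V} {f : ℕ → E} {α β : Fin k}
    {c : E → Option (Fin k)} (h : G.State l v f α β c) (hl : 3 ≤ l) (s : ℕ) :
    G.State l (fun n => v ((n + s) % l)) (fun n => f ((n + s) % l)) α β c := by
  have hlt : ∀ n, n % l < l := fun n => Nat.mod_lt _ (by omega)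
  refine ⟨h.pp, ?_, ?_, ?_, fun i hi => h.ma _ (hlt _), fun i hi => h.mb _ (hlt _), h.ne⟩
  · intro i hi j hj hij
    have h1 := h.inj _ (hlt _) _ (hlt _) hij
    have h2 : i ≡ j [MOD l] := Nat.ModEq.add_right_cancel' s h1
    exact Nat.ModEq.eq_of_lt_of_lt h2 hi hj
  · intro i hi
    have h1 : nx l ((i + s) % l) = (nx l i + s) % l := by
      rw [← mod_eq_nx (hlt _), ← mod_eq_nx hi, Nat.mod_add_mod, Nat.mod_add_mod]
      congr 1
      ring
    rw [h.ed _ (hlt _), h1]
  · intro e
    rw [h.none_iff]
    constructor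
    · rintro ⟨i, hi, rfl⟩
      refine ⟨(i + (l - 1) * s) % l, hlt _, ?_⟩
      have h1 : i + (l - 1) * s + s = i + l * s := by
        obtain ⟨l', rfl⟩ : ∃ l', l = l' + 1 := ⟨l - 1, by omega⟩
        simp only [Nat.add_sub_cancel]
        ring
      try dsimp only
      rw [Nat.mod_add_mod, h1, Nat.add_mul_mod_self_left, Nat.mod_eq_of_lt hi]
    · rintro ⟨i, hi, rfl⟩
      exact ⟨_, hlt _, rfl⟩

lemma State.recolor {G : MGraph V E} {k l : ℕ} {v : ℕ → V} {f : ℕ → E} {α β : Fin k}
    {c : E → Option (Fin k)} (h : G.State l v f α β c) (hl : 3 ≤ l) (C : ℕ → Option (Fin k))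
    (h1 : ∀ j < l, ∀ a, C j = some a → a = α ∨ a = β)
    (h2 : ∀ j < l, ∀ a, C j = some a → C (nx l j) ≠ some a) :
    ∃ d : E → Option (Fin k), G.PP d ∧ (∀ j < l, d (f j) = C j) ∧
      (∀ e, (∀ j < l, e ≠ f j) → d e = c e) := by
  classical
  have finj := G.edge_inj hl h.inj h.ed
  let d : E → Option (Fin k) := fun e =>
    if h : ∃ j, j < l ∧ e = f j then C h.choose else c e
  have d1 : ∀ j < l, d (f j) = C j := by
    intro j hj
    have hh : ∃ j', j' < l ∧ f j = f j' := ⟨j, hj, rfl⟩
    simp only [d]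
    rw [dif_pos hh]
    have := finj _ hj _ hh.choose_spec.1 hh.choose_spec.2
    rw [← this]
  have d2 : ∀ e, (¬ ∃ j, j < l ∧ e = f j) → d e = c e := by
    intro e he
    simp only [d]
    rw [dif_neg he]
  have hmiss : ∀ j < l, ∀ u, u ∈ G.ends (f j) → ∀ a, C j = some a → G.Miss c u a := by
    intro j hj u hu a ha
    rw [h.ed j hj, Sym2.mem_iff] at hu
    rcases h1 j hj a ha with rfl | rfl
    · rcases hu with rfl | rfl
      · exact h.ma j hj
      · exact h.ma _ (nx_lt hj)
    · rcases hu with rfl | rfl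
      · exact h.mb j hj
      · exact h.mb _ (nx_lt hj)
  refine ⟨d, ?_, d1, fun e he => d2 e (fun ⟨j, hj, hej⟩ => he j hj hej)⟩
  intro e e' u a he he' hde hde'
  by_cases hce : ∃ j, j < l ∧ e = f j
  · obtain ⟨j, hj, rfl⟩ := hce
    rw [d1 j hj] at hde
    by_cases hce' : ∃ j, j < l ∧ e' = f j
    · obtain ⟨j', hj', rfl⟩ := hce'
      rw [d1 j' hj'] at hde'
      rw [h.ed j hj, Sym2.mem_iff] at he
      rw [h.ed j' hj', Sym2.mem_iff] at he'
      rcases he with he | he <;> rcases he' with he' | he'
      · rw [h.inj j hj j' hj' (he.symm.trans he')]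
      · have := h.inj j hj _ (nx_lt hj') (he.symm.trans he')
        exact absurd (by rw [← this, hde]) (h2 j' hj' a hde')
      · have := h.inj _ (nx_lt hj) j' hj' (he.symm.trans he')
        exact absurd (by rw [this, hde']) (h2 j hj a hde)
      · have := h.inj _ (nx_lt hj) _ (nx_lt hj') (he.symm.trans he')
        rw [nx_inj this]
    · exfalso
      rw [d2 e' hce'] at hde'
      exact hmiss j hj u he a hde e' he' hde'
  · rw [d2 e hce] at hde
    by_cases hce' : ∃ j, j < l ∧ e' = f j
    · exfalso
      obtain ⟨j', hj', rfl⟩ := hce'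
      rw [d1 j' hj'] at hde'
      exact hmiss j' hj' u he' a hde' e he hde
    · rw [d2 e' hce'] at hde'
      exact h.pp e e' u a he he' hde hde'

lemma State.exit0 {G : MGraph V E} [Finite V] {k l : ℕ} {v : ℕ → V} {f : ℕ → E} {α β : Fin k}
    {c : E → Option (Fin k)} (h : G.State l v f α β c) (hl : 3 ≤ l) (hodd : l % 2 = 1)
    (hG : ¬ G.Colorable k) (hex : ∀ (c : E → Option (Fin k)) (u : V), ∃ a, G.Miss c u a)
    {i : ℕ} (hi : i < l) {γ : Fin k} (hγα : γ ≠ α) (hγβ : γ ≠ β)
    (hγ : G.Miss c (v i) γ) {e : E} {z : V} (he : c e = some γ)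
    (hends : G.ends e = s(v (l - 1), z)) (hz : ∀ n < l, z ≠ v n) :
    ∀ x < l, ∀ a, G.Miss c (v x) a → ¬ G.Miss c z a := by
  classical
  have finj := G.edge_inj hl h.inj h.ed
  obtain ⟨d, d1, d2, d3⟩ := h.recolor hl
    (fun n => if n = 0 then none else if n % 2 = 1 then some α else some β) (by
      intro j hj a ha
      try dsimp only at ha
      split_ifs at ha
      · exact Or.inl (Option.some.inj ha).symm
      · exact Or.inr (Option.some.inj ha).symm) (by
      intro j hj a ha hb
      try dsimp only at ha hb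
      have hne := h.ne
      have hcase : (j + 1 = l ∧ nx l j = 0) ∨ (j + 1 < l ∧ nx l j = j + 1) := by
        unfold nx
        split_ifs <;> omega
      rcases hcase with ⟨h3, h4⟩ | ⟨h3, h4⟩
      · rw [h4, if_pos rfl] at hb
        simp at hb
      · rw [h4, if_neg (by omega)] at hb
        split_ifs at ha hb
        · omega
        · exact hne ((Option.some.inj ha).trans (Option.some.inj hb).symm)
        · exact hne ((Option.some.inj hb).trans (Option.some.inj ha).symm)
        · omega)
  have hcyc : ∀ x, (∀ j < l, x ≠ f j) ∨ ∃ j, j < l ∧ x = f j := by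
    intro x
    by_cases hx : ∃ j, j < l ∧ x = f j
    · exact Or.inr hx
    · exact Or.inl (fun j hj hxj => hx ⟨j, hj, hxj⟩)
  have hnot : ∀ x, (∀ j < l, x ≠ f j) → d x ≠ none := by
    intro x hx hn
    rw [d3 x hx, h.none_iff] at hn
    obtain ⟨j, hj, hxj⟩ := hn
    exact hx j hj hxj
  have he' : ∀ j < l, e ≠ f j := by
    intro j hj hej
    have := (h.none_iff e).mpr ⟨j, hj, hej⟩
    rw [he] at this
    simp at this
  have mz : ∀ a, G.Miss c z a → G.Miss d z a := by
    intro a ha x hx
    rcases hcyc x with hx' | ⟨j, hj, rfl⟩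
    · rw [d3 x hx']; exact ha x hx
    · exfalso
      rw [h.ed j hj, Sym2.mem_iff] at hx
      rcases hx with hx | hx
      · exact hz j hj hx
      · exact hz _ (nx_lt hj) hx
  have mγ : ∀ a, a ≠ α → a ≠ β → ∀ n < l, G.Miss c (v n) a → G.Miss d (v n) a := by
    intro a haα haβ n hn ha x hx
    rcases hcyc x with hx' | ⟨j, hj, rfl⟩
    · rw [d3 x hx']; exact ha x hx
    · rw [d2 j hj]
      split_ifs
      · simp
      · intro hh; exact haα (Option.some.inj hh).symm
      · intro hh; exact haβ (Option.some.inj hh).symm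
  have mα : G.Miss d (v 0) α := by
    intro x hx
    rcases hcyc x with hx' | ⟨j, hj, rfl⟩
    · rw [d3 x hx']; exact h.ma 0 (by omega) x hx
    · rw [h.ed j hj, Sym2.mem_iff] at hx
      rw [d2 j hj]
      rcases hx with hx | hx
      · have := h.inj _ (by omega) _ hj hx
        rw [if_pos this.symm]; simp
      · have := h.inj _ (by omega) _ (nx_lt hj) hx
        unfold nx at this
        split_ifs at this
        rw [if_neg (by omega), if_neg (by omega)]
        intro hh
        exact h.ne (Option.some.inj hh).symm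
  have mβ : G.Miss d (v 1) β := by
    intro x hx
    rcases hcyc x with hx' | ⟨j, hj, rfl⟩
    · rw [d3 x hx']; exact h.mb 1 (by omega) x hx
    · rw [h.ed j hj, Sym2.mem_iff] at hx
      rw [d2 j hj]
      rcases hx with hx | hx
      · have := h.inj _ (by omega) _ hj hx
        rw [if_neg (by omega), if_pos (by omega)]
        intro hh
        exact h.ne (Option.some.inj hh)
      · have := h.inj _ (by omega) _ (nx_lt hj) hx
        unfold nx at this
        split_ifs at this
        rw [if_pos (by omega)]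
        simp
  have hKP : G.KP l (fun n => if n < l then v n else z) (fun n => if n < l - 1 then f n else e) d := by
    refine ⟨d1, ?_, ?_, ?_, ?_⟩
    · intro i hi j hj hij
      try dsimp only at hij
      split_ifs at hij with h3 h4 h4
      · exact h.inj i h3 j h4 hij
      · exact absurd hij.symm (hz i h3)
      · exact absurd hij (hz j h4)
      · omega
    · intro n hn
      try dsimp only
      rw [if_pos hn]
      by_cases h3 : n < l - 1
      · rw [if_pos h3, if_pos (by omega), h.ed n hn]
        congr 3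
        unfold nx
        rw [if_neg (by omega)]
      · rw [if_neg h3, if_neg (by omega), hends]
        congr 3
        omega
    · intro x
      try dsimp only
      rw [if_pos (by omega)]
      constructor
      · intro hx
        rcases hcyc x with hx' | ⟨j, hj, rfl⟩
        · exact absurd hx (hnot x hx')
        · rw [d2 j hj] at hx
          split_ifs at hx with h3
          rw [h3]
      · rintro rfl
        rw [d2 0 (by omega), if_pos rfl]
    · intro n hn1 hn2
      try dsimp only
      by_cases h3 : n < l - 1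
      · rw [if_pos h3, d2 n hn2, if_neg (by omega)]
        by_cases h4 : n % 2 = 1
        · refine ⟨0, by omega, α, by rw [if_pos h4], ?_⟩
          rw [if_pos (by omega)]
          exact mα
        · refine ⟨1, by omega, β, by rw [if_neg h4], ?_⟩
          rw [if_pos (by omega)]
          exact mβ
      · rw [if_neg h3]
        refine ⟨i, by omega, γ, by rw [d3 e he', he], ?_⟩
        rw [if_pos hi]
        exact mγ γ hγα hγβ i hi hγ
  have hdisj := KP.disj hG hex _ _ l d hKP (by omega)
  intro x hx a ha hza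
  by_cases haα : a = α
  · subst haα
    refine hdisj 0 l (by omega) le_rfl a ?_ ?_
    · rw [if_pos (by omega)]; exact mα
    · rw [if_neg (by omega)]; exact mz a hza
  by_cases haβ : a = β
  · subst haβ
    refine hdisj 1 l (by omega) le_rfl a ?_ ?_
    · rw [if_pos (by omega)]; exact mβ
    · rw [if_neg (by omega)]; exact mz a hza
  refine hdisj x l hx le_rfl a ?_ ?_
  · rw [if_pos hx]; exact mγ a haα haβ x hx ha
  · rw [if_neg (by omega)]; exact mz a hza

/-- If a colour missing at a vertex of the cycle leaves the cycle along an edge to `z`, then no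
colour missing at the cycle is missing at `z`. -/
lemma State.exit {G : MGraph V E} [Finite V] {k l : ℕ} {v : ℕ → V} {f : ℕ → E} {α β : Fin k}
    {c : E → Option (Fin k)} (h : G.State l v f α β c) (hl : 3 ≤ l) (hodd : l % 2 = 1)
    (hG : ¬ G.Colorable k) (hex : ∀ (c : E → Option (Fin k)) (u : V), ∃ a, G.Miss c u a)
    {i j : ℕ} (hi : i < l) (hj : j < l) {γ : Fin k} (hγα : γ ≠ α) (hγβ : γ ≠ β)
    (hγ : G.Miss c (v i) γ) {e : E} {z : V} (he : c e = some γ)
    (hends : G.ends e = s(v j, z)) (hz : ∀ n < l, z ≠ v n) :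
    ∀ x < l, ∀ a, G.Miss c (v x) a → ¬ G.Miss c z a := by
  have hlt : ∀ n, n % l < l := fun n => Nat.mod_lt _ (by omega)
  have hinv : ∀ x < l, ∃ x', x' < l ∧ (x' + (j + 1)) % l = x := by
    intro x hx
    refine ⟨(x + (l - 1) * (j + 1)) % l, hlt _, ?_⟩
    have h1 : x + (l - 1) * (j + 1) + (j + 1) = x + l * (j + 1) := by
      obtain ⟨l', rfl⟩ : ∃ l', l = l' + 1 := ⟨l - 1, by omega⟩
      simp only [Nat.add_sub_cancel]
      ring
    rw [Nat.mod_add_mod, h1, Nat.add_mul_mod_self_left, Nat.mod_eq_of_lt hx]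
  have h' := h.rot hl (j + 1)
  obtain ⟨i', hi', hi2⟩ := hinv i hi
  have hlast : (l - 1 + (j + 1)) % l = j := by
    have : l - 1 + (j + 1) = j + l := by omega
    rw [this, Nat.add_mod_right, Nat.mod_eq_of_lt hj]
  intro x hx a ha
  obtain ⟨x', hx', hx2⟩ := hinv x hx
  refine h'.exit0 hl hodd hG hex hi' hγα hγβ ?_ he ?_ (fun n hn => hz _ (hlt _)) x' hx' a ?_
  · try dsimp only
    rw [hi2]
    exact hγ
  · try dsimp only
    rw [hlast]
    exact hends
  · try dsimp only
    rw [hx2]
    exact ha

end MGraph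

lemma even_card {α : Type} (S : Finset α) (φ : α → α) (h1 : ∀ x ∈ S, φ x ∈ S)
    (h2 : ∀ x ∈ S, φ x ≠ x) (h3 : ∀ x ∈ S, φ (φ x) = x) : S.card % 2 = 0 := by
  have h := Finset.sum_involution (s := S) (f := fun _ => (1 : ZMod 2)) (fun a _ => φ a)
    (fun _ _ => by decide) (fun a ha _ => h2 a ha) (fun a ha => h1 a ha) (fun a ha => h3 a ha)
  rw [Finset.sum_const, nsmul_one] at h
  have := (ZMod.natCast_eq_zero_iff _ _).mp h
  omega

/-- parity of the set of exits -/
lemma odd_exit {V : Type} [DecidableEq V] (C : Finset V) (σ : V → V)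
    (hσ : Function.Involutive σ) (hC : C.card % 2 = 1) :
    (C.filter (fun u => σ u ∉ C ∨ σ u = u)).card % 2 = 1 := by
  classical
  have h1 := Finset.card_filter_add_card_filter_not (s := C) (fun u => σ u ∉ C ∨ σ u = u)
  have h2 : (C.filter (fun u => ¬ (σ u ∉ C ∨ σ u = u))).card % 2 = 0 := by
    apply even_card _ σ
    · intro x hx
      rw [Finset.mem_filter] at hx ⊢
      push Not at hx ⊢
      refine ⟨hx.2.1, by rw [hσ x]; exact hx.1, ?_⟩
      rw [hσ x]
      exact hx.2.2.symm
    · intro x hx
      rw [Finset.mem_filter] at hx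
      push Not at hx
      exact hx.2.2
    · intro x _
      exact hσ x
  omega

namespace MGraph

variable {V E : Type}

lemma card_miss [Finite E] (G : MGraph V E) {k : ℕ} (c : E → Option (Fin k)) (u : V) {Δ : ℕ}
    (hdeg : G.degree u ≤ Δ) [DecidablePred fun a => G.Miss c u a] :
    k ≤ (Finset.univ.filter (fun a => G.Miss c u a)).card + Δ := by
  classical
  have := Fintype.ofFinite E
  have h1 := Finset.card_filter_add_card_filter_not (s := (Finset.univ : Finset (Fin k)))
    (fun a => G.Miss c u a)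
  rw [Finset.card_univ, Fintype.card_fin] at h1
  have h2 : (Finset.univ.filter (fun a : Fin k => ¬ G.Miss c u a)).card ≤
      (Finset.univ.filter (fun e => u ∈ G.ends e)).card := by
    have hx : ∀ a ∈ Finset.univ.filter (fun a : Fin k => ¬ G.Miss c u a),
        ∃ e, u ∈ G.ends e ∧ c e = some a := by
      intro a ha
      have ha := (Finset.mem_filter.mp ha).2
      unfold Miss at ha
      push Not at ha
      exact ha
    rcases isEmpty_or_nonempty E with hE | hE
    · have : Finset.univ.filter (fun a : Fin k => ¬ G.Miss c u a) = ∅ := by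
        rw [Finset.eq_empty_iff_forall_notMem]
        intro a ha
        obtain ⟨e, _⟩ := hx a ha
        exact hE.false e
      rw [this]
      simp
    choose! F hF using hx
    apply Finset.card_le_card_of_injOn F
    · intro a ha
      simp only [Finset.coe_filter, Finset.mem_univ, true_and, Set.mem_ofPred_eq]
      exact (hF a ha).1
    · intro a ha b hb hab
      have h3 := (hF a ha).2
      rw [hab, (hF b hb).2] at h3
      exact (Option.some.inj h3).symm
  rw [← degree_eq] at h2
  omega

lemma State.disj' [Finite V] [Finite E] {G : MGraph V E} {k l : ℕ} {v : ℕ → V} {f : ℕ → E}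
    {α β : Fin k} (hl : 3 ≤ l) (hodd : l % 2 = 1) (hG : ¬ G.Colorable k) {Δ : ℕ}
    (hdeg : ∀ u, G.degree u ≤ Δ) (hk : Δ + 1 ≤ k) {c : E → Option (Fin k)}
    (h : G.State l v f α β c) {i j : ℕ} (hi : i < l) (hj : j < l) {γ : Fin k} (hγα : γ ≠ α)
    (hγβ : γ ≠ β) (h1 : G.Miss c (v i) γ) (h2 : G.Miss c (v j) γ) : i = j := by
  have hex : ∀ c : E → Option (Fin k), G.State l v f α β c →
      ∀ i < l, (G.ms c α β (v i)).Nonempty := by
    intro c h i hi
    have := h.card_ms hl hdeg hi
    rw [← Finset.card_pos]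
    omega
  by_contra hij
  rcases Nat.lt_or_gt_of_ne hij with hlt | hlt
  · exact State.disj hl hodd hG hex _ c h i j hlt hj rfl γ hγα hγβ h1 h2
  · exact State.disj hl hodd hG hex _ c h j i hlt hi rfl γ hγα hγβ h2 h1

lemma State.transfer {G : MGraph V E} {k l : ℕ} {v : ℕ → V} {f : ℕ → E} {α β : Fin k}
    {c c' : E → Option (Fin k)} (h : G.State l v f α β c) (h1 : G.PP c')
    (h2 : ∀ e, c' e = none ↔ c e = none) (h3 : ∀ e, c' e = some α ↔ c e = some α)
    (h4 : ∀ e, c' e = some β ↔ c e = some β) : G.State l v f α β c' := by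
  refine ⟨h1, h.inj, h.ed, fun e => by rw [h2 e, h.none_iff], ?_, ?_, h.ne⟩
  · intro i hi e he
    rw [Ne, h3 e]
    exact h.ma i hi e he
  · intro i hi e he
    rw [Ne, h4 e]
    exact h.mb i hi e he

/-- Two exits of the same colour end at vertices with disjoint sets of missing colours. -/
lemma State.exit_disj [Finite V] [Finite E] {G : MGraph V E} {k l : ℕ} {v : ℕ → V} {f : ℕ → E}
    {α β : Fin k} (hl : 3 ≤ l) (hodd : l % 2 = 1) (hG : ¬ G.Colorable k) {Δ : ℕ}
    (hdeg : ∀ u, G.degree u ≤ Δ) (hk : Δ + 1 ≤ k) {c : E → Option (Fin k)}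
    (h : G.State l v f α β c) {i j j' : ℕ} (hi : i < l) (hj : j < l) (hj' : j' < l) {γ : Fin k}
    (hγα : γ ≠ α) (hγβ : γ ≠ β) (hγ : G.Miss c (v i) γ) {e e' : E} {z z' : V}
    (he : c e = some γ) (hends : G.ends e = s(v j, z)) (hz : ∀ n < l, z ≠ v n)
    (he' : c e' = some γ) (hends' : G.ends e' = s(v j', z')) (hz' : ∀ n < l, z' ≠ v n)
    (hzz : z ≠ z') {δ : Fin k} (h1 : G.Miss c z δ) (h2 : G.Miss c z' δ) : False := by
  have hex : ∀ (c : E → Option (Fin k)) (u : V), ∃ a, G.Miss c u a :=
    fun c u => G.exists_miss c u (hdeg u) hk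
  have hE := h.exit hl hodd hG hex hi hj hγα hγβ hγ he hends hz
  have hδα : δ ≠ α := by
    rintro rfl
    exact hE 0 (by omega) _ (h.ma 0 (by omega)) h1
  have hδβ : δ ≠ β := by
    rintro rfl
    exact hE 0 (by omega) _ (h.mb 0 (by omega)) h1
  have hγδ : γ ≠ δ := by
    rintro rfl
    exact hE i hi _ hγ h1
  obtain ⟨x, hx, hxi⟩ : ∃ x, x < l ∧ x ≠ i := by
    rcases Nat.eq_zero_or_pos i with h0 | h0
    · exact ⟨1, by omega, by omega⟩
    · exact ⟨0, by omega, by omega⟩
  have hne : (G.ms c α β (v x)).Nonempty := by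
    have := h.card_ms hl hdeg hx
    rw [← Finset.card_pos]
    omega
  obtain ⟨η, hη⟩ := hne
  rw [mem_ms] at hη
  obtain ⟨hηα, hηβ, hηm⟩ := hη
  have hηγ : η ≠ γ := by
    rintro rfl
    exact hxi (State.disj' hl hodd hG hdeg hk h hx hi hηα hηβ hηm hγ)
  have hηδ : η ≠ δ := by
    rintro rfl
    exact hE x hx _ hηm h1
  obtain ⟨c', g1, g2, g3, g4, g5⟩ := G.swap_comp h.pp η δ (v x) hηm
  have h' : G.State l v f α β c' := h.transfer g1 g2 (fun e => g3 e α hηα.symm hδα.symm)
    (fun e => g3 e β hηβ.symm hδβ.symm)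
  have hγ' : G.Miss c' (v i) γ := by
    intro x hx
    rw [Ne, g3 x γ hηγ.symm hγδ]
    exact hγ x hx
  have aux : ∀ (e : E) (z : V) (j : ℕ), j < l → c e = some γ → G.ends e = s(v j, z) →
      (∀ n < l, z ≠ v n) → G.Miss c z δ →
      (¬ ∃ n : ℤ, z = ((G.iv h.pp η * G.iv h.pp δ) ^ n) (v x)) → False := by
    intro e z j hj he hends hz hzδ hno
    refine h'.exit hl hodd hG hex hi hj hγα hγβ hγ' ?_ hends hz x hx δ g4 (g5 z hno δ hzδ)
    rw [g3 e γ hηγ.symm hγδ]
    exact he
  by_cases h6 : ∃ n : ℤ, z = ((G.iv h.pp η * G.iv h.pp δ) ^ n) (v x)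
  · by_cases h7 : ∃ n : ℤ, z' = ((G.iv h.pp η * G.iv h.pp δ) ^ n) (v x)
    · obtain ⟨n1, hn1⟩ := h6
      obtain ⟨n2, hn2⟩ := h7
      have := three_fixed _ _ (G.iv_sq h.pp η) (G.iv_sq h.pp δ) (v x) z z'
        (by rw [iv_apply]; exact G.nb_miss hηm) n1 n2 hn1 hn2
        (Or.inr (by rw [iv_apply]; exact G.nb_miss h1))
        (Or.inr (by rw [iv_apply]; exact G.nb_miss h2))
      rcases this with h8 | h8 | h8
      · exact hz x hx h8.symm
      · exact hz' x hx h8.symm
      · exact hzz h8
    · exact aux e' z' j' hj' he' hends' hz' h2 h7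
  · exact aux e z j hj he hends hz h1 h6

lemma card_cyc [DecidableEq V] {l : ℕ} {v : ℕ → V} (inj : ∀ i < l, ∀ j < l, v i = v j → i = j) :
    ((Finset.range l).image v).card = l := by
  rw [Finset.card_image_of_injOn, Finset.card_range]
  intro i hi j hj hij
  exact inj i (by simpa using hi) j (by simpa using hj) hij

/-- No colour missing at the cycle (other than `α`, `β`) leaves the cycle. -/
lemma State.closed [Finite V] [Finite E] {G : MGraph V E} {k l : ℕ} {v : ℕ → V} {f : ℕ → E}
    {α β : Fin k} (hl : 3 ≤ l) (hodd : l % 2 = 1) (hG : ¬ G.Colorable k) {Δ : ℕ}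
    (hdeg : ∀ u, G.degree u ≤ Δ) (hk : Δ + 1 ≤ k) (hbig : k < (l + 2) * (k - Δ) + 2)
    {c : E → Option (Fin k)} (h : G.State l v f α β c) {i : ℕ} (hi : i < l) {γ : Fin k}
    (hγα : γ ≠ α) (hγβ : γ ≠ β) (hγ : G.Miss c (v i) γ) {e : E} {u w : V} (he : c e = some γ)
    (hu : u ∈ G.ends e) (hw : w ∈ G.ends e) (huC : ∃ j < l, u = v j) : ∃ n < l, w = v n := by
  classical
  by_contra hcon
  push Not at hcon
  obtain ⟨j, hj, rfl⟩ := huC
  have hends : G.ends e = s(v j, w) :=
    (Sym2.mem_and_mem_iff (fun hh => hcon j hj hh.symm)).mp ⟨hu, hw⟩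
  have hex : ∀ (c : E → Option (Fin k)) (u : V), ∃ a, G.Miss c u a :=
    fun c u => G.exists_miss c u (hdeg u) hk
  set C := (Finset.range l).image v with hC
  have hCcard : C.card = l := card_cyc h.inj
  have hmemC : ∀ x, x ∈ C ↔ ∃ n < l, x = v n := by
    intro x
    rw [hC, Finset.mem_image]
    constructor
    · rintro ⟨n, hn, rfl⟩; exact ⟨n, by simpa using hn, rfl⟩
    · rintro ⟨n, hn, rfl⟩; exact ⟨n, by simpa using hn, rfl⟩
  have hwC : w ∉ C := by
    rw [hmemC]
    rintro ⟨n, hn, hwn⟩
    exact hcon n hn hwn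
  have hodd2 := odd_exit C (G.nb c γ) (G.nb_invol h.pp γ) (by rw [hCcard]; exact hodd)
  have hσj : G.nb c γ (v j) = w := G.nb_eq h.pp he hends
  have hσi : G.nb c γ (v i) = v i := G.nb_miss hγ
  have hij : v i ≠ v j := by
    intro hh
    rw [hh] at hγ
    exact hγ e hu he
  set D := C.filter (fun u => G.nb c γ u ∉ C ∨ G.nb c γ u = u) with hD
  have h1 : {v i, v j} ⊆ D := by
    intro x hx
    rw [Finset.mem_insert, Finset.mem_singleton] at hx
    rw [hD, Finset.mem_filter]
    rcases hx with rfl | rfl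
    · exact ⟨(hmemC _).mpr ⟨i, hi, rfl⟩, Or.inr hσi⟩
    · exact ⟨(hmemC _).mpr ⟨j, hj, rfl⟩, Or.inl (by rw [hσj]; exact hwC)⟩
  have h2 : ({v i, v j} : Finset V).card = 2 := Finset.card_pair hij
  obtain ⟨u', hu'D, hu'⟩ : ∃ u' ∈ D, u' ∉ ({v i, v j} : Finset V) := by
    by_contra hno
    push Not at hno
    have : D = {v i, v j} := Finset.Subset.antisymm hno h1
    rw [this, h2] at hodd2
    omega
  rw [Finset.mem_insert, Finset.mem_singleton] at hu'
  push Not at hu'
  rw [hD, Finset.mem_filter, hmemC] at hu'D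
  obtain ⟨⟨j', hj', hu'j⟩, hu'2⟩ := hu'D
  have hnm : ¬ G.Miss c u' γ := by
    intro hm
    rw [hu'j] at hm hu'
    have := State.disj' hl hodd hG hdeg hk h hj' hi hγα hγβ hm hγ
    rw [this] at hu'
    exact hu'.1 rfl
  have hu'3 : G.nb c γ u' ∉ C := by
    rcases hu'2 with h3 | h3
    · exact h3
    · exact absurd ((G.miss_iff h.pp).mp h3) hnm
  obtain ⟨e', he', hends'⟩ := G.exists_of_not_miss h.pp hnm
  set z' := G.nb c γ u' with hz'def
  have hz' : ∀ n < l, z' ≠ v n := fun n hn hh => hu'3 ((hmemC _).mpr ⟨n, hn, hh⟩)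
  have hzz : w ≠ z' := by
    intro hh
    have h3 := G.nb_invol h.pp γ (v j)
    have h4 := G.nb_invol h.pp γ u'
    rw [hσj, hh] at h3
    rw [← hz'def, h3] at h4
    exact hu'.2 h4.symm
  have hdisjz : ∀ δ, G.Miss c w δ → G.Miss c z' δ → False := fun δ h3 h4 =>
    State.exit_disj hl hodd hG hdeg hk h hi hj hj' hγα hγβ hγ he hends (fun n hn => hcon n hn) he'
      (by rw [hends', hu'j]) hz' hzz h3 h4
  have hE := h.exit hl hodd hG hex hi hj hγα hγβ hγ he hends (fun n hn => hcon n hn)
  have hE' := h.exit hl hodd hG hex hi hj' hγα hγβ hγ he' (by rw [hends', hu'j]) hz'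
  -- counting
  have hdisj : ∀ i ∈ Finset.range l, ∀ j ∈ Finset.range l, i ≠ j →
      Disjoint (G.ms c α β (v i)) (G.ms c α β (v j)) := by
    intro i hi j hj hij
    rw [Finset.mem_range] at hi hj
    rw [Finset.disjoint_left]
    intro γ h1 h2
    rw [mem_ms] at h1 h2
    exact hij (State.disj' hl hodd hG hdeg hk h hi hj h1.1 h1.2.1 h1.2.2 h2.2.2)
  have k1 := Finset.card_biUnion hdisj
  set A := (Finset.range l).biUnion (fun i => G.ms c α β (v i)) with hA
  set M1 := Finset.univ.filter (fun a => G.Miss c w a) with hM1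
  set M2 := Finset.univ.filter (fun a => G.Miss c z' a) with hM2
  have k2 : A ⊆ Finset.univ \ ({α, β} ∪ M1 ∪ M2) := by
    intro a ha
    rw [hA, Finset.mem_biUnion] at ha
    obtain ⟨n, hn, ha⟩ := ha
    rw [Finset.mem_range] at hn
    rw [mem_ms] at ha
    have h5 := hE n hn a ha.2.2
    have h6 := hE' n hn a ha.2.2
    simp [hM1, hM2, ha.1, ha.2.1, h5, h6]
  have k3 := Finset.card_le_card k2
  have k4 : Disjoint ({α, β} ∪ M1) M2 := by
    rw [Finset.disjoint_left]
    intro a ha hb
    rw [hM2, Finset.mem_filter] at hb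
    rw [Finset.mem_union, Finset.mem_insert, Finset.mem_singleton] at ha
    rcases ha with (rfl | rfl) | ha
    · exact hE' 0 (by omega) _ (h.ma 0 (by omega)) hb.2
    · exact hE' 0 (by omega) _ (h.mb 0 (by omega)) hb.2
    · exact hdisjz a (Finset.mem_filter.mp ha).2 hb.2
  have k5 : Disjoint {α, β} M1 := by
    rw [Finset.disjoint_left]
    intro a ha hb
    rw [hM1, Finset.mem_filter] at hb
    rw [Finset.mem_insert, Finset.mem_singleton] at ha
    rcases ha with rfl | rfl
    · exact hE 0 (by omega) _ (h.ma 0 (by omega)) hb.2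
    · exact hE 0 (by omega) _ (h.mb 0 (by omega)) hb.2
  rw [k1, Finset.card_sdiff_of_subset (Finset.subset_univ _), Finset.card_univ, Fintype.card_fin,
    Finset.card_union_of_disjoint k4, Finset.card_union_of_disjoint k5, Finset.card_pair h.ne] at k3
  have k6 := G.card_miss c w (hdeg w)
  have k7 := G.card_miss c z' (hdeg z')
  have k8 : l * (k - Δ) ≤ ∑ i ∈ Finset.range l, (G.ms c α β (v i)).card := by
    have : ∑ i ∈ Finset.range l, (k - Δ) ≤ ∑ i ∈ Finset.range l, (G.ms c α β (v i)).card := by
      apply Finset.sum_le_sum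
      intro i hi
      have := h.card_ms hl hdeg (Finset.mem_range.mp hi)
      omega
    simpa using this
  have k9 : (l + 2) * (k - Δ) = l * (k - Δ) + (k - Δ) + (k - Δ) := by ring
  have k10 : 1 ≤ l * (k - Δ) := Nat.mul_pos (by omega) (by omega)
  rw [← hM1] at k6
  rw [← hM2] at k7
  omega

end MGraph

namespace MGraph

variable {V E : Type}

/-- Every colour other than `α`, `β` has exactly one exit. -/
lemma State.one_exit [Finite V] [Finite E] [DecidableEq V] {G : MGraph V E} {k l : ℕ} {v : ℕ → V}
    {f : ℕ → E} {α β : Fin k} (hl : 3 ≤ l) (hodd : l % 2 = 1) (hG : ¬ G.Colorable k) {Δ : ℕ}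
    (hdeg : ∀ u, G.degree u ≤ Δ) (hk : Δ + 1 ≤ k) (hbig : k < (l + 2) * (k - Δ) + 2)
    {c : E → Option (Fin k)} (h : G.State l v f α β c) {b : Fin k}
    (hbα : b ≠ α) (hbβ : b ≠ β) :
    (((Finset.range l).image v).filter
      (fun u => G.nb c b u ∉ (Finset.range l).image v ∨ G.nb c b u = u)).card = 1 := by
  set C := (Finset.range l).image v with hC
  have hCcard : C.card = l := card_cyc h.inj
  have hmemC : ∀ x, x ∈ C ↔ ∃ n < l, x = v n := by
    intro x
    rw [hC, Finset.mem_image]
    constructor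
    · rintro ⟨n, hn, rfl⟩; exact ⟨n, by simpa using hn, rfl⟩
    · rintro ⟨n, hn, rfl⟩; exact ⟨n, by simpa using hn, rfl⟩
  have hodd2 := odd_exit C (G.nb c b) (G.nb_invol h.pp b) (by rw [hCcard]; exact hodd)
  set D := C.filter (fun u => G.nb c b u ∉ C ∨ G.nb c b u = u) with hD
  by_contra hne
  have hclosed : ∀ c : E → Option (Fin k), G.State l v f α β c → ∀ γ, γ ≠ α → γ ≠ β →
      ∀ i < l, G.Miss c (v i) γ → ∀ e u w, c e = some γ →
      u ∈ G.ends e → w ∈ G.ends e → u ∈ C → w ∈ C := by
    intro c h γ hγα hγβ i hi hγ e u w he hu hw huC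
    rw [hmemC] at huC ⊢
    exact State.closed hl hodd hG hdeg hk hbig h hi hγα hγβ hγ he hu hw huC
  have hcl := hclosed c h
  by_cases hmiss : ∃ i, i < l ∧ G.Miss c (v i) b
  · obtain ⟨i, hi, hm⟩ := hmiss
    have h1 : D ⊆ {v i} := by
      intro u hu
      rw [hD, Finset.mem_filter] at hu
      obtain ⟨huC, hu2⟩ := hu
      obtain ⟨j, hj, rfl⟩ := (hmemC u).mp huC
      have hmj : G.Miss c (v j) b := by
        by_contra hnm
        obtain ⟨e, he, hends⟩ := G.exists_of_not_miss h.pp hnm
        rcases hu2 with h3 | h3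
        · exact h3 (hcl b hbα hbβ i hi hm e (v j) _ he (by rw [hends]; simp)
            (by rw [hends]; simp) huC)
        · exact hnm ((G.miss_iff h.pp).mp h3)
      rw [State.disj' hl hodd hG hdeg hk h hj hi hbα hbβ hmj hm]
      simp
    have h2 := Finset.card_le_card h1
    rw [Finset.card_singleton] at h2
    omega
  · push Not at hmiss
    have hmissC : ∀ u ∈ C, ¬ G.Miss c u b := by
      intro u hu
      obtain ⟨j, hj, rfl⟩ := (hmemC u).mp hu
      exact hmiss j hj
    have hD2 : ∀ u, u ∈ D ↔ u ∈ C ∧ G.nb c b u ∉ C := by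
      intro u
      rw [hD, Finset.mem_filter]
      constructor
      · rintro ⟨h1, h2 | h2⟩
        · exact ⟨h1, h2⟩
        · exact absurd ((G.miss_iff h.pp).mp h2) (hmissC u h1)
      · rintro ⟨h1, h2⟩
        exact ⟨h1, Or.inl h2⟩
    have hms : ∀ i < l, (G.ms c α β (v i)).Nonempty := by
      intro i hi
      have := h.card_ms hl hdeg hi
      rw [← Finset.card_pos]
      omega
    obtain ⟨δ, hδ⟩ := hms 0 (by omega)
    rw [mem_ms] at hδ
    obtain ⟨hδα, hδβ, hδm⟩ := hδ
    have hbδ : b ≠ δ := by
      rintro rfl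
      exact hmiss 0 (by omega) hδm
    have hout : ∀ u, u ∉ C → G.nb c δ u ∉ C := by
      intro u hu hu2
      by_cases hm : G.Miss c u δ
      · rw [G.nb_miss hm] at hu2
        exact hu hu2
      · obtain ⟨e, he, hends⟩ := G.exists_of_not_miss h.pp hm
        exact hu (hcl δ hδα hδβ 0 (by omega) hδm e _ u he (by rw [hends]; simp)
          (by rw [hends]; simp) hu2)
    have sinv : Function.Involutive (fun u => if u ∈ C then u else G.nb c δ u) := by
      intro u
      by_cases hu : u ∈ C
      · simp [hu]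
      · simp only [hu, if_false, hout u hu]
        exact G.nb_invol h.pp δ u
    have tinv : Function.Involutive
        (fun u => if u ∈ C ∧ G.nb c b u ∈ C then u else G.nb c b u) := by
      intro u
      have hi := G.nb_invol h.pp b u
      by_cases hu : u ∈ C ∧ G.nb c b u ∈ C
      · simp only [if_pos hu]
      · simp only [if_neg hu, hi]
        rw [if_neg]
        rintro ⟨h1, h2⟩
        exact hu ⟨h2, h1⟩
    set s : Equiv.Perm V := sinv.toPerm with hsdef
    set t : Equiv.Perm V := tinv.toPerm with htdef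
    have s_apply : ∀ u, s u = if u ∈ C then u else G.nb c δ u := fun _ => rfl
    have t_apply : ∀ u, t u = if u ∈ C ∧ G.nb c b u ∈ C then u else G.nb c b u := fun _ => rfl
    have hs : s * s = 1 := by
      ext u
      exact sinv u
    have ht : t * t = 1 := by
      ext u
      exact tinv u
    have hsC : ∀ u ∈ C, s u = u := by
      intro u hu
      rw [s_apply, if_pos hu]
    obtain ⟨u, huD, huniq⟩ : ∃ u ∈ D, ∀ w ∈ D, w ≠ u → ¬ ∃ n : ℤ, w = ((s * t) ^ n) u := by
      by_contra hno
      push Not at hno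
      have hno' : ∀ u, ∃ w, u ∈ D → (w ∈ D ∧ w ≠ u ∧ ∃ n : ℤ, w = ((s * t) ^ n) u) := by
        intro u
        by_cases hu : u ∈ D
        · obtain ⟨w, h1, h2, h3⟩ := hno u hu
          exact ⟨w, fun _ => ⟨h1, h2, h3⟩⟩
        · exact ⟨u, fun hh => absurd hh hu⟩
      choose φ hφ using hno'
      have := even_card D φ (fun x hx => (hφ x hx).1) (fun x hx => (hφ x hx).2.1) (by
        intro x hx
        obtain ⟨h1, h2, n1, hn1⟩ := hφ x hx
        obtain ⟨h3, h4, n2, hn2⟩ := hφ (φ x) h1
        have h5 : φ (φ x) = ((s * t) ^ (n2 + n1)) x := by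
          rw [zpow_add, Equiv.Perm.mul_apply, ← hn1, ← hn2]
        have h6 := three_fixed s t hs ht x (φ x) (φ (φ x)) (hsC x ((hD2 x).mp hx).1) n1 (n2 + n1)
          hn1 h5 (Or.inl (hsC _ ((hD2 _).mp h1).1)) (Or.inl (hsC _ ((hD2 _).mp h3).1))
        rcases h6 with h6 | h6 | h6
        · exact absurd h6.symm h2
        · exact h6.symm
        · exact absurd h6.symm h4)
      omega
    obtain ⟨huC, huout⟩ := (hD2 u).mp huD
    set O : Set V := {w | ∃ n : ℤ, w = ((s * t) ^ n) u} with hO
    have huO : u ∈ O := ⟨0, by simp⟩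
    have hOs : ∀ w ∈ O, s w ∈ O := by
      rintro w ⟨n, hn⟩
      exact ⟨-n, by rw [hn, dih_s s t hs ht u (hsC u huC)]⟩
    have hOt : ∀ w ∈ O, t w ∈ O := by
      rintro w ⟨n, hn⟩
      exact ⟨-n - 1, by rw [hn, dih_t s t hs ht u (hsC u huC)]⟩
    have hOC : ∀ w ∈ O, w ∈ C → w = u := by
      intro w hwO hwC
      by_contra hwu
      by_cases hwD : w ∈ D
      · exact huniq w hwD hwu hwO
      · have h1 : G.nb c b w ∈ C := by
          by_contra h1
          exact hwD ((hD2 w).mpr ⟨hwC, h1⟩)
        obtain ⟨n, hn⟩ := hwO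
        have h2 : (s * t) w = w := by
          rw [Equiv.Perm.mul_apply, t_apply, if_pos ⟨hwC, h1⟩, hsC w hwC]
        have h3 : ((s * t) ^ (-n)) w = w := Equiv.Perm.zpow_apply_eq_self_of_apply_eq_self h2 _
        rw [hn, ← Equiv.Perm.mul_apply, ← zpow_add, neg_add_cancel, zpow_zero,
          Equiv.Perm.one_apply] at h3
        exact hwu (by rw [hn, ← h3])
    obtain ⟨i, hi, hui⟩ := (hmemC u).mp huC
    obtain ⟨γ, hγ⟩ := hms i hi
    rw [← hui, mem_ms] at hγ
    obtain ⟨hγα, hγβ, hγm⟩ := hγ
    have hbγ : b ≠ γ := by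
      rintro rfl
      exact hmissC u huC hγm
    obtain ⟨c1, g1, g2, g3, g4, g5, g6, g7⟩ := G.swap_on h.pp δ γ {w | w ∉ C} (by
      intro e x w hx hw hcol hxC hwC
      apply hxC
      rcases hcol with hcol | hcol
      · exact hcl δ hδα hδβ 0 (by omega) hδm e w x hcol hw hx hwC
      · exact hcl γ hγα hγβ i hi (hui ▸ hγm) e w x hcol hw hx hwC)
    have h1 : G.State l v f α β c1 := h.transfer g1 g2 (fun e => g3 e α hδα.symm hγα.symm)
      (fun e => g3 e β hδβ.symm hγβ.symm)
    have hγ1 : G.Miss c1 u γ := g5 u (fun hh => hh huC) γ hγm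
    obtain ⟨c2, k1, k2, k3, k4, k5, k6, k7⟩ := G.swap_on g1 γ b O (by
      intro e w w' hw hw' hcol hwO
      by_cases hww : w' = w
      · rw [hww]; exact hwO
      have hends : G.ends e = s(w, w') := (Sym2.mem_and_mem_iff (Ne.symm hww)).mp ⟨hw, hw'⟩
      rcases hcol with hcol | hcol
      · by_cases hwC : w ∈ C
        · exfalso
          rw [hOC w hwO hwC] at hw
          exact hγ1 e hw hcol
        · rw [g7 e w hw hwC, Equiv.swap_apply_right] at hcol
          have := G.nb_eq h.pp hcol hends
          rw [← this]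
          have h2 := hOs w hwO
          rw [s_apply, if_neg hwC] at h2
          exact h2
      · rw [g3 e b hbδ hbγ] at hcol
        have := G.nb_eq h.pp hcol hends
        rw [← this]
        have h2 := hOt w hwO
        rw [t_apply, if_neg] at h2
        · exact h2
        · rintro ⟨h3, h4⟩
          rw [hOC w hwO h3] at h4
          exact huout h4)
    have h2 : G.State l v f α β c2 := h1.transfer k1 k2 (fun e => k3 e α hγα.symm hbα.symm)
      (fun e => k3 e β hγβ.symm hbβ.symm)
    have hb2 : G.Miss c2 u b := by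
      have := k4 u huO γ hγ1
      rwa [Equiv.swap_apply_left] at this
    obtain ⟨u2, hu2D, hu2⟩ : ∃ u2 ∈ D, u2 ≠ u := Finset.exists_mem_ne (by omega) u
    obtain ⟨hu2C, hu2out⟩ := (hD2 u2).mp hu2D
    obtain ⟨e2, he2, hends2⟩ := G.exists_of_not_miss h.pp (hmissC u2 hu2C)
    have he2' : c2 e2 = some b := by
      rw [k6 e2 u2 (by rw [hends2]; simp) (huniq u2 hu2D hu2), g3 e2 b hbδ hbγ]
      exact he2
    exact hu2out (hclosed c2 h2 b hbα hbβ i hi (hui ▸ hb2) e2 u2 _ he2' (by rw [hends2]; simp)
      (by rw [hends2]; simp) hu2C)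

/-- The cycle spans at least `k * p + 1` edges. -/
lemma State.count [Finite V] [Finite E] {G : MGraph V E}
    {k p : ℕ} {v : ℕ → V}
    {f : ℕ → E} {α β : Fin k} (hp : 1 ≤ p) (hG : ¬ G.Colorable k) {Δ : ℕ}
    (hdeg : ∀ u, G.degree u ≤ Δ) (hk : Δ + 1 ≤ k) (hbig : k < (2 * p + 1 + 2) * (k - Δ) + 2)
    {c : E → Option (Fin k)} (h : G.State (2 * p + 1) v f α β c) :
    k * p + 1 ≤ Nat.card {e : E // ∀ u ∈ G.ends e, ∃ n < 2 * p + 1, u = v n} := by
  classical
  have := Fintype.ofFinite E
  have finj := G.edge_inj (by omega) h.inj h.ed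
  set C := (Finset.range (2 * p + 1)).image v with hC
  have hCcard : C.card = 2 * p + 1 := card_cyc h.inj
  have hmemC : ∀ n < 2 * p + 1, v n ∈ C := by
    intro n hn
    rw [hC, Finset.mem_image]
    exact ⟨n, by simpa using hn, rfl⟩
  set In := Finset.univ.filter (fun e => ∀ u ∈ G.ends e, u ∈ C) with hIn
  have hne : Nonempty E := ⟨f 0⟩
  have hcol : ∀ a : Fin k, a ≠ α → a ≠ β → p ≤ (In.filter (fun e => c e = some a)).card := by
    intro a haα haβ
    have h1 := State.one_exit (by omega) (by omega) hG hdeg hk hbig h haα haβ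
    rw [← hC] at h1
    have h2 := Finset.card_filter_add_card_filter_not (s := C)
      (fun u => G.nb c a u ∉ C ∨ G.nb c a u = u)
    set C' := C.filter (fun u => ¬ (G.nb c a u ∉ C ∨ G.nb c a u = u)) with hC'
    have h3 : ∀ u ∈ C', ∃ e, c e = some a ∧ G.ends e = s(u, G.nb c a u) := by
      intro u hu
      rw [hC', Finset.mem_filter] at hu
      push Not at hu
      apply G.exists_of_not_miss h.pp
      intro hm
      exact hu.2.2 (G.nb_miss hm)
    choose! F hF using h3
    have h4 : C'.image F ⊆ In.filter (fun e => c e = some a) := by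
      intro e he
      rw [Finset.mem_image] at he
      obtain ⟨u, hu, rfl⟩ := he
      rw [Finset.mem_filter, hIn, Finset.mem_filter]
      refine ⟨⟨Finset.mem_univ _, ?_⟩, (hF u hu).1⟩
      intro w hw
      rw [(hF u hu).2, Sym2.mem_iff] at hw
      rw [hC', Finset.mem_filter] at hu
      push Not at hu
      rcases hw with rfl | rfl
      · exact hu.1
      · exact hu.2.1
    have h5 : C'.card ≤ 2 * (C'.image F).card := by
      apply Finset.card_le_mul_card_image
      intro e he
      obtain ⟨x, y, hxy, hends⟩ : ∃ x y, x ≠ y ∧ G.ends e = s(x, y) := by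
        have hloop := G.loopless e
        induction hh : G.ends e using Sym2.ind with
        | _ x y =>
          refine ⟨x, y, ?_, rfl⟩
          intro hxy
          apply hloop
          rw [hh, hxy]
          simp
      have h6 : C'.filter (fun u => F u = e) ⊆ {x, y} := by
        intro u hu
        rw [Finset.mem_filter] at hu
        have h7 : u ∈ G.ends e := by
          rw [← hu.2, (hF u hu.1).2]
          simp
        rw [hends, Sym2.mem_iff] at h7
        simpa using h7
      exact (Finset.card_le_card h6).trans Finset.card_le_two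
    have h6 := Finset.card_le_card h4
    omega
  have hnone : 2 * p + 1 ≤ (In.filter (fun e => c e = none)).card := by
    have h1 : ((Finset.range (2 * p + 1)).image f).card = 2 * p + 1 := card_cyc finj
    rw [← h1]
    apply Finset.card_le_card
    intro e he
    rw [Finset.mem_image] at he
    obtain ⟨n, hn, rfl⟩ := he
    rw [Finset.mem_range] at hn
    rw [Finset.mem_filter, hIn, Finset.mem_filter, h.none_iff]
    refine ⟨⟨Finset.mem_univ _, ?_⟩, ⟨n, hn, rfl⟩⟩
    intro u hu
    rw [h.ed n hn, Sym2.mem_iff] at hu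
    rcases hu with rfl | rfl
    · exact hmemC n hn
    · exact hmemC _ (nx_lt hn)
  have htot := Finset.card_eq_sum_card_fiberwise (f := c) (s := In) (t := Finset.univ)
    (fun _ _ => Finset.mem_univ _)
  rw [Fintype.sum_option] at htot
  have hsum : ∑ a : Fin k, (if a ∈ ({α, β} : Finset (Fin k)) then 0 else p) ≤
      ∑ a : Fin k, (In.filter (fun e => c e = some a)).card := by
    apply Finset.sum_le_sum
    intro a _
    split_ifs with ha
    · exact Nat.zero_le _
    · rw [Finset.mem_insert, Finset.mem_singleton] at ha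
      push Not at ha
      exact hcol a ha.1 ha.2
  have hsum2 : ∑ a : Fin k, (if a ∈ ({α, β} : Finset (Fin k)) then 0 else p) = (k - 2) * p := by
    rw [Finset.sum_ite, Finset.sum_const_zero, zero_add, Finset.sum_const, smul_eq_mul]
    congr 1
    have h1 := Finset.card_filter_add_card_filter_not (s := (Finset.univ : Finset (Fin k)))
      (fun a => a ∈ ({α, β} : Finset (Fin k)))
    rw [Finset.card_univ, Fintype.card_fin] at h1
    have h2 : (Finset.univ.filter (fun a => a ∈ ({α, β} : Finset (Fin k)))).card = 2 := by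
      rw [Finset.filter_mem_eq_inter, Finset.univ_inter, Finset.card_pair h.ne]
    omega
  have hk2 : 2 ≤ k := by
    have := Finset.card_le_univ ({α, β} : Finset (Fin k))
    rw [Finset.card_pair h.ne, Fintype.card_fin] at this
    exact this
  have h9 : k * p = (k - 2) * p + 2 * p := by
    obtain ⟨k', rfl⟩ : ∃ k', k = k' + 2 := ⟨k - 2, by omega⟩
    rw [Nat.add_sub_cancel]
    ring
  rw [hsum2] at hsum
  have hfin : k * p + 1 ≤ In.card := by omega
  rw [Nat.card_eq_fintype_card, Fintype.card_subtype]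
  refine hfin.trans (le_of_eq ?_)
  congr 1
  rw [hIn]
  apply Finset.filter_congr
  intro e _
  refine forall₂_congr (fun u _ => ?_)
  rw [hC, Finset.mem_image]
  constructor
  · rintro ⟨n, hn, rfl⟩; exact ⟨n, by simpa using hn, rfl⟩
  · rintro ⟨n, hn, rfl⟩; exact ⟨n, by simpa using hn, rfl⟩

end MGraph

namespace MGraph

variable {V E : Type}

lemma Colorable.mono {G : MGraph V E} {j k : ℕ} (h : G.Colorable j) (hjk : j ≤ k) :
    G.Colorable k := by
  obtain ⟨c, hc⟩ := h
  exact ⟨fun e => Fin.castLE hjk (c e), fun e f hef hv h => hc e f hef hv (Fin.castLE_injective hjk h)⟩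

lemma exists_ends (G : MGraph V E) (e : E) : ∃ x y, x ≠ y ∧ G.ends e = s(x, y) := by
  have hl := G.loopless e
  induction h : G.ends e using Sym2.ind with
  | _ x y =>
    refine ⟨x, y, ?_, rfl⟩
    intro hxy
    apply hl
    rw [h, hxy]
    simp

/-- A shortest odd cycle has no chord. -/
lemma chord (G : MGraph V E) {l : ℕ} (hl : 3 ≤ l) (hodd : l % 2 = 1) {v : ℕ → V} {f : ℕ → E}
    (inj : ∀ i < l, ∀ j < l, v i = v j → i = j)
    (ed : ∀ i < l, G.ends (f i) = s(v i, v (nx l i)))
    (hmin : ∀ l', 3 ≤ l' → l' % 2 = 1 → G.HasCycle l' → l ≤ l')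
    {e : E} {i j : ℕ} (hij : i < j) (hj : j < l) (he : G.ends e = s(v i, v j)) :
    j = i + 1 ∨ (i = 0 ∧ j = l - 1) := by
  by_contra hcon
  push Not at hcon
  obtain ⟨h1, h2⟩ := hcon
  have h2' : j - i + 1 < l := by
    by_contra h3
    exact h2 (by omega) (by omega)
  rcases Nat.mod_two_eq_zero_or_one (j - i) with hpar | hpar
  · have hc : G.HasCycle (j - i + 1) := by
      refine ⟨fun t => v (i + t), ?_, ?_⟩
      · intro a ha b hb hab
        have := inj _ (by omega) _ (by omega) hab
        omega
      · intro t ht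
        by_cases htl : t = j - i
        · refine ⟨e, ?_⟩
          subst htl
          rw [he, Nat.mod_self, Sym2.eq_swap]
          congr 3
          omega
        · refine ⟨f (i + t), ?_⟩
          rw [ed _ (by omega), Nat.mod_eq_of_lt (by omega)]
          congr 3
          unfold nx
          rw [if_neg (by omega)]
          omega
    have := hmin _ (by omega) (by omega) hc
    omega
  · have hlt : ∀ n, n % l < l := fun n => Nat.mod_lt _ (by omega)
    have hc : G.HasCycle (l - (j - i) + 1) := by
      refine ⟨fun t => v ((j + t) % l), ?_, ?_⟩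
      · intro a ha b hb hab
        have h3 := inj _ (hlt _) _ (hlt _) hab
        have h4 : a ≡ b [MOD l] := Nat.ModEq.add_left_cancel' j h3
        exact Nat.ModEq.eq_of_lt_of_lt h4 (by omega) (by omega)
      · intro t ht
        by_cases htl : t = l - (j - i)
        · refine ⟨e, ?_⟩
          subst htl
          rw [he, Nat.mod_self]
          have h5 : j + (l - (j - i)) = i + l := by omega
          show s(v i, v j) = s(v ((j + (l - (j - i))) % l), v ((j + 0) % l))
          rw [h5, Nat.add_mod_right, Nat.mod_eq_of_lt (show i < l by omega), Nat.add_zero,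
            Nat.mod_eq_of_lt hj]
        · refine ⟨f ((j + t) % l), ?_⟩
          rw [ed _ (hlt _), ← mod_eq_nx (hlt _), Nat.mod_add_mod, Nat.mod_eq_of_lt
            (show t + 1 < l - (j - i) + 1 by omega)]
          congr 3
    have := hmin _ (by omega) (by omega) hc
    omega

lemma State.ring [Finite V] [Finite E] {G : MGraph V E}
    {k p : ℕ} {v : ℕ → V}
    {f : ℕ → E} {α β : Fin k} (hp : 1 ≤ p) (hG : ¬ G.Colorable k) {Δ : ℕ}
    (hdeg : ∀ u, G.degree u ≤ Δ) (hk : Δ + 1 ≤ k) (hbig : k < (2 * p + 1 + 2) * (k - Δ) + 2)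
    (hmin : ∀ l', 3 ≤ l' → l' % 2 = 1 → G.HasCycle l' → 2 * p + 1 ≤ l')
    {c : E → Option (Fin k)} (h : G.State (2 * p + 1) v f α β c) :
    k * p + 1 ≤ Nat.card {e : E // ∃ i < 2 * p + 1,
      G.ends e = s(v i, v ((i + 1) % (2 * p + 1)))} := by
  refine (h.count hp hG hdeg hk hbig).trans ?_
  have key : ∀ e, (∀ u ∈ G.ends e, ∃ n < 2 * p + 1, u = v n) → ∃ i < 2 * p + 1,
      G.ends e = s(v i, v ((i + 1) % (2 * p + 1))) := by
    have aux : ∀ e i j, i < j → j < 2 * p + 1 → G.ends e = s(v i, v j) → ∃ i < 2 * p + 1,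
        G.ends e = s(v i, v ((i + 1) % (2 * p + 1))) := by
      intro e i j hij hj he
      rcases G.chord (by omega) (by omega) h.inj h.ed hmin hij hj he with h1 | ⟨h1, h2⟩
      · refine ⟨i, by omega, ?_⟩
        rw [he, h1, Nat.mod_eq_of_lt (by omega)]
      · refine ⟨2 * p, by omega, ?_⟩
        rw [he, Nat.mod_self, h1, h2, Sym2.eq_swap]
        congr 3
    intro e he
    obtain ⟨x, y, hxy, hends⟩ := G.exists_ends e
    obtain ⟨i, hi, hxi⟩ := he x (by rw [hends]; simp)
    obtain ⟨j, hj, hyj⟩ := he y (by rw [hends]; simp)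
    rcases Nat.lt_trichotomy i j with h1 | h1 | h1
    · exact aux e i j h1 hj (by rw [hends, hxi, hyj])
    · exfalso
      apply hxy
      rw [hxi, hyj, h1]
    · exact aux e j i h1 hi (by rw [hends, hxi, hyj, Sym2.eq_swap])
  apply Nat.card_le_card_of_injective
    (fun x : {e : E // ∀ u ∈ G.ends e, ∃ n < 2 * p + 1, u = v n} =>
      (⟨x.1, key x.1 x.2⟩ : {e : E // ∃ i < 2 * p + 1,
        G.ends e = s(v i, v ((i + 1) % (2 * p + 1)))}))
  intro x y hxy
  have hval := congrArg Subtype.val hxy
  exact Subtype.ext hval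

lemma exists_state [Finite V] [Finite E] (G : MGraph V E) {Δ k : ℕ} (hk : Δ + 1 ≤ k)
    (hdeg : ∀ u, G.degree u ≤ Δ) (e0 : E) (h0 : (G.del e0).Colorable k)
    (hG : ¬ G.Colorable k) : ∃ l v f, ∃ α β : Fin k, ∃ c : E → Option (Fin k),
      3 ≤ l ∧ l % 2 = 1 ∧ G.State l v f α β c := by
  classical
  obtain ⟨c0, hc0⟩ := h0
  set c : E → Option (Fin k) := fun e => if h : e ≠ e0 then some (c0 ⟨e, h⟩) else none with hcdef
  have hnone : ∀ e, c e = none ↔ e = e0 := by
    intro e
    simp only [hcdef]
    by_cases h : e = e0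
    · simp [h]
    · simp [h]
  have hc : G.PP c := by
    intro e f u a he hf h1 h2
    by_contra hef
    have he0 : e ≠ e0 := fun h => by rw [(hnone e).mpr h] at h1; simp at h1
    have hf0 : f ≠ e0 := fun h => by rw [(hnone f).mpr h] at h2; simp at h2
    have h3 := hc0 ⟨e, he0⟩ ⟨f, hf0⟩ (fun h => hef (congrArg Subtype.val h)) ⟨u, he, hf⟩
    simp only [hcdef] at h1 h2
    rw [dif_pos he0] at h1
    rw [dif_pos hf0] at h2
    exact h3 (Option.some.inj (h1.trans h2.symm))
  obtain ⟨x, y, -, hxy⟩ := G.exists_ends e0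
  have hext : ∀ c' : E → Option (Fin k), G.PP c' → (∀ e, c' e = none ↔ e = e0) → ∀ a,
      G.Miss c' x a → G.Miss c' y a → False := by
    intro c' hc' hn' a hxa hya
    apply hG
    refine G.colorable_of_total _ (G.pp_update hc' hxy hxa hya) (fun e => ?_)
    by_cases hx : e = e0
    · rw [hx, Function.update_self]; simp
    · rw [Function.update_of_ne hx, Ne, hn']; exact hx
  obtain ⟨α, hα⟩ := G.exists_miss c x (hdeg x) hk
  obtain ⟨β, hβ⟩ := G.exists_miss c y (hdeg y) hk
  by_cases hαβ : α = β
  · subst hαβ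
    exact (hext c hc hnone α hα hβ).elim
  by_cases hyc : ∃ m0 : ℤ, y = ((G.iv hc α * G.iv hc β) ^ m0) x
  · obtain ⟨m0, hm0⟩ := hyc
    obtain ⟨l, v, f, c', hl, hodd, hst⟩ := G.extract hc hxy hnone hαβ hα hβ m0 hm0
    exact ⟨l, v, f, α, β, c', hl, hodd, hst⟩
  · obtain ⟨c', h1, h2, h3, h4, h5⟩ := G.swap_comp hc α β x hα
    exact (hext c' h1 (fun e => by rw [h2, hnone]) β h4 (h5 y hyc β hβ)).elim

theorem main_ring [Finite V] {Δ p k : ℕ} (hp : 1 ≤ p) (hk : Δ + 1 ≤ k)
    (hbig : Δ < (2 * p + 2) * (k - Δ) + 2) (n : ℕ) :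
    ∀ (E : Type) [Finite E] (G : MGraph V E), Nat.card E = n → (∀ u, G.degree u ≤ Δ) →
      (∀ l, 3 ≤ l → l % 2 = 1 → G.HasCycle l → 2 * p + 1 ≤ l) → ¬ G.Colorable k →
      ∃ v : ℕ → V, (∀ i < 2 * p + 1, ∀ j < 2 * p + 1, v i = v j → i = j) ∧
        k * p + 1 ≤ Nat.card {e : E // ∃ i < 2 * p + 1,
          G.ends e = s(v i, v ((i + 1) % (2 * p + 1)))} := by
  classical
  induction n with
  | zero =>
    intro E _ G hE _ _ hG
    have : IsEmpty E := by
      rcases Nat.card_eq_zero.mp hE with h | h
      · exact h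
      · exact absurd ‹Finite E› h.not_finite
    exact absurd ⟨fun e => (this.false e).elim, fun e => (this.false e).elim⟩ hG
  | succ n ih =>
    intro E _ G hE hdeg hcyc hG
    obtain ⟨e0⟩ : Nonempty E := by
      have : 0 < Nat.card E := by omega
      exact (Nat.card_pos_iff.mp this).1
    have hcard : Nat.card {e : E // e ≠ e0} = n := by
      have := Fintype.ofFinite E
      rw [Nat.card_eq_fintype_card] at hE ⊢
      have h1 := Fintype.card_subtype_compl (fun e : E => e = e0)
      simp only [Fintype.card_subtype_eq] at h1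
      rw [hE] at h1
      simpa using h1
    by_cases h0 : (G.del e0).Colorable k
    · obtain ⟨l, v, f, α, β, c, hl, hodd, h⟩ := G.exists_state hk hdeg e0 h0 hG
      have h1 := h.bound hl hodd hG hdeg hk
      have h2 := hcyc l hl hodd ⟨v, h.inj, fun i hi => ⟨f i, by rw [mod_eq_nx hi, h.ed i hi]⟩⟩
      have h3 : l = 2 * p + 1 := by
        by_contra h4
        have h5 : (2 * p + 3) * (k - Δ) ≤ l * (k - Δ) := Nat.mul_le_mul_right _ (by omega)
        have h6 : (2 * p + 3) * (k - Δ) = (2 * p + 2) * (k - Δ) + (k - Δ) := by ring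
        omega
      subst h3
      refine ⟨v, h.inj, h.ring hp hG hdeg hk ?_ hcyc⟩
      have h6 : (2 * p + 1 + 2) * (k - Δ) = (2 * p + 2) * (k - Δ) + (k - Δ) := by ring
      omega
    · obtain ⟨v, h1, h2⟩ := ih {e : E // e ≠ e0} (G.del e0) hcard
        (fun u => (G.del_degree e0 u).trans (hdeg u)) (by
          intro l h1 h2 ⟨v, h3, h4⟩
          refine hcyc l h1 h2 ⟨v, h3, fun i hi => ?_⟩
          obtain ⟨e, he⟩ := h4 i hi
          exact ⟨e.1, he⟩) h0
      refine ⟨v, h1, h2.trans ?_⟩
      apply Nat.card_le_card_of_injective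
        (fun x : {e : {e : E // e ≠ e0} // ∃ i < 2 * p + 1,
          (G.del e0).ends e = s(v i, v ((i + 1) % (2 * p + 1)))} =>
          (⟨x.1.1, x.2⟩ : {e : E // ∃ i < 2 * p + 1,
            G.ends e = s(v i, v ((i + 1) % (2 * p + 1)))}))
      intro x y hxy
      have := congrArg Subtype.val hxy
      exact Subtype.ext (Subtype.ext this)

/-- Every colour is used at most `p` times on a ring with `2 * p + 1` vertices. -/
lemma ring_overfull [Finite E] (G : MGraph V E) {k p : ℕ} (hc : G.Colorable k) (v : ℕ → V) :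
    Nat.card {e : E // ∃ i < 2 * p + 1,
      G.ends e = s(v i, v ((i + 1) % (2 * p + 1)))} ≤ k * p := by
  classical
  have := Fintype.ofFinite E
  obtain ⟨c, hc⟩ := hc
  rw [Nat.card_eq_fintype_card, Fintype.card_subtype]
  set R := Finset.univ.filter (fun e => ∃ i < 2 * p + 1,
    G.ends e = s(v i, v ((i + 1) % (2 * p + 1)))) with hR
  set C := (Finset.range (2 * p + 1)).image v with hC
  have hCcard : C.card ≤ 2 * p + 1 := by
    have := Finset.card_image_le (s := Finset.range (2 * p + 1)) (f := v)
    rwa [Finset.card_range] at this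
  have h1 : ∀ a : Fin k, (R.filter (fun e => c e = a)).card ≤ p := by
    intro a
    have h2 : ∀ e ∈ R.filter (fun e => c e = a),
        ∀ f ∈ R.filter (fun e => c e = a), e ≠ f →
        Disjoint (C.filter (fun v => v ∈ G.ends e))
          (C.filter (fun v => v ∈ G.ends f)) := by
      intro e he f hf hef
      rw [Finset.disjoint_left]
      intro v hv hv'
      simp only [Finset.mem_filter] at he hf hv hv'
      exact hc e f hef ⟨v, hv.2, hv'.2⟩ (he.2.trans hf.2.symm)
    have h3 := Finset.card_biUnion h2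
    have h4 : ∀ e ∈ R.filter (fun e => c e = a),
        (C.filter (fun v => v ∈ G.ends e)).card = 2 := by
      intro e he
      rw [Finset.mem_filter, hR, Finset.mem_filter] at he
      obtain ⟨⟨_, i, hi, hends⟩, _⟩ := he
      obtain ⟨x, y, hxy, hes⟩ := G.exists_ends e
      have hmem : ∀ u ∈ G.ends e, u ∈ C := by
        intro u hu
        rw [hends, Sym2.mem_iff] at hu
        rw [hC, Finset.mem_image]
        rcases hu with rfl | rfl
        · exact ⟨i, by simpa using hi, rfl⟩
        · exact ⟨_, Finset.mem_range.mpr (Nat.mod_lt _ (Nat.succ_pos _)), rfl⟩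
      have : C.filter (fun v => v ∈ G.ends e) = {x, y} := by
        ext u
        rw [Finset.mem_filter, Finset.mem_insert, Finset.mem_singleton, ← Sym2.mem_iff, ← hes]
        exact ⟨fun h => h.2, fun h => ⟨hmem u h, h⟩⟩
      rw [this, Finset.card_pair hxy]
    have h5 : ((R.filter (fun e => c e = a)).biUnion
      (fun e => C.filter (fun v => v ∈ G.ends e))).card ≤ C.card := by
      apply Finset.card_le_card
      intro u hu
      rw [Finset.mem_biUnion] at hu
      obtain ⟨e, _, hu⟩ := hu
      exact (Finset.mem_filter.mp hu).1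
    rw [h3, Finset.sum_congr rfl h4] at h5
    simp only [Finset.sum_const, smul_eq_mul] at h5
    omega
  have h6 := Finset.card_eq_sum_card_fiberwise (f := c) (s := R) (t := Finset.univ)
    (fun _ _ => Finset.mem_univ _)
  rw [h6]
  calc _ ≤ ∑ _a : Fin k, p := Finset.sum_le_sum (fun a _ => h1 a)
    _ = k * p := by simp

end MGraph

/-- **Main theorem.** Let `G` be a finite loopless multigraph with maximum degree `Δ` and odd
girth `g`, and write `Δ - 2 = (g - 1) q + r` with `0 ≤ r < g - 1`. If `r < 2 q`, then `G` attains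
Goldberg's bound `Δ + 1 + q` if and only if it contains a ring graph on `g` vertices: distinct
vertices `v 0, ..., v (g - 1)` such that the number `N` of edges of `G` joining cyclically
consecutive ones satisfies `2 N ≥ g Δ - r` (equivalently `N ≥ (Δ + q) (g - 1) / 2 + 1`; the sum of
the numbers `Δ - d(v i)`, degrees taken in the ring, is at most `r`). The condition `r < 2 q` holds
for all but finitely many `Δ` for each `g`, namely whenever `2 (Δ - 2) ≥ (g - 1) ^ 2`. -/
theorem result :
    (∀ (V E : Type) [Finite V] [Finite E] (G : MGraph V E) (Δ g : ℕ),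
      G.HasMaxDegree Δ → G.HasOddGirth g →
      (Δ - 2) % (g - 1) < 2 * ((Δ - 2) / (g - 1)) →
      (G.HasChromaticIndex (Δ + 1 + (Δ - 2) / (g - 1)) ↔
        ∃ v : ℕ → V, (∀ i < g, ∀ j < g, v i = v j → i = j) ∧
          g * Δ ≤ 2 * Nat.card {e : E // ∃ i < g, G.ends e = s(v i, v ((i + 1) % g))} +
            (Δ - 2) % (g - 1))) ∧
    (∀ Δ g : ℕ, 3 ≤ g → g % 2 = 1 → (g - 1) ^ 2 ≤ 2 * (Δ - 2) →
      (Δ - 2) % (g - 1) < 2 * ((Δ - 2) / (g - 1))) := by
  constructor
  · intro V E _ _ G Δ g hΔ hg hr
    obtain ⟨⟨hg3, hgodd, hgcyc⟩, hgmin⟩ := hg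
    obtain ⟨p, rfl⟩ : ∃ p, g = 2 * p + 1 := ⟨g / 2, by omega⟩
    have hp : 1 ≤ p := by omega
    rw [Nat.add_sub_cancel] at hr ⊢
    set q := (Δ - 2) / (2 * p) with hq
    set r := (Δ - 2) % (2 * p) with hrdef
    have hdm : 2 * p * q + r = Δ - 2 := Nat.div_add_mod _ _
    have hrlt : r < 2 * p := Nat.mod_lt _ (by omega)
    have hΔ2 : 2 ≤ Δ := by
      by_contra h2
      have : Δ - 2 = 0 := by omega
      rw [hq, hrdef, this] at hr
      simp at hr
    have hcyc : ∀ l, 3 ≤ l → l % 2 = 1 → G.HasCycle l → 2 * p + 1 ≤ l :=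
      fun l h1 h2 h3 => hgmin ⟨h1, h2, h3⟩
    have hup : G.Colorable (Δ + 1 + q) := by
      refine MGraph.goldberg (Δ := Δ) (p := p) (by omega) ?_ _ E G rfl hΔ.1 hcyc
      have h1 : Δ + 1 + q - Δ = q + 1 := by omega
      have h2 : 2 * p * (q + 1) = 2 * p * q + 2 * p := by ring
      rw [h1, h2]
      omega
    have harith : (Δ + q) * p * 2 + 2 + r = (2 * p + 1) * Δ := by
      have h1 : (Δ + q) * p * 2 = 2 * p * Δ + 2 * p * q := by ring
      have h2 : (2 * p + 1) * Δ = 2 * p * Δ + Δ := by ring
      omega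
    have hiff : G.HasChromaticIndex (Δ + 1 + q) ↔ ¬ G.Colorable (Δ + q) := by
      constructor
      · intro h hc
        have := h.2 hc
        omega
      · intro h
        refine ⟨hup, fun j hj => ?_⟩
        by_contra hlt
        exact h (MGraph.Colorable.mono (j := j) hj (by omega))
    rw [hiff]
    constructor
    · intro h
      obtain ⟨v, h1, h2⟩ := MGraph.main_ring hp (k := Δ + q) (Δ := Δ) (by
          rcases Nat.eq_zero_or_pos q with h0 | h0
          · rw [h0] at hr; omega
          · omega) (by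
          have h1 : Δ + q - Δ = q := by omega
          have h2 : (2 * p + 2) * q = 2 * p * q + 2 * q := by ring
          rw [h1, h2]
          omega) _ E G rfl hΔ.1 hcyc h
      refine ⟨v, h1, ?_⟩
      omega
    · rintro ⟨v, h1, h2⟩ hc
      have := G.ring_overfull (p := p) hc v
      omega
  · intro Δ g hg hodd h
    obtain ⟨p, rfl⟩ : ∃ p, g = 2 * p + 1 := ⟨g / 2, by omega⟩
    rw [Nat.add_sub_cancel] at h ⊢
    have h1 : (Δ - 2) % (2 * p) < 2 * p := Nat.mod_lt _ (by omega)
    have h2 : p ≤ (Δ - 2) / (2 * p) := by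
      rw [Nat.le_div_iff_mul_le (by omega)]
      have : (2 * p) ^ 2 = 2 * (p * (2 * p)) := by ring
      omega
    omega

end Pool.Agent.Results.MP_cf7ece_co.LargeDegree
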